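import Pool.Agent.Helper80.CB.Stmts
import Pool.Agent.Helper80.CB.Basic

namespace Pool.Agent.Helper80.CB

open Matrix MvPolynomial

theorem linend_linP_sum {r n : ℕ} {T : Type} [AddCommGroup T] [Module ℝ T]
    (c : Module.Basis (Fin r) ℝ T) (a : Fin n → ℝ) (l : Fin n → T →ₗ[ℝ] ℝ) :
    linP c (∑ i, a i • l i) = ∑ i, a i • linP c (l i) := by
  apply val_ext c
  intro x
  rw [linP_eval, val_sum, LinearMap.sum_apply]
  refine Finset.sum_congr rfl fun i _ => ?_
  rw [val_smul, linP_eval]
  rfl

theorem linend_coord {r : ℕ} {T : Type} [AddCommGroup T] [Module ℝ T]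
    (c : Module.Basis (Fin r) ℝ T) (s : Fin r) : linP c (c.coord s) = X s := by
  apply val_ext c
  intro x
  rw [linP_eval]
  simp [val]

theorem st_LINEND : ST_LINEND := by
  intro r n T _ _ c l hl σ hσ
  choose j hj using hσ
  -- the coordinates are combinations of the `l i`
  set Λ : T →ₗ[ℝ] (Fin n → ℝ) := LinearMap.pi l with hΛ
  have hΛi : LinearMap.ker Λ = ⊥ := by
    rw [LinearMap.ker_eq_bot']
    intro x hx
    exact hl x fun i => congrFun hx i
  obtain ⟨ρ, hρ⟩ := LinearMap.exists_leftInverse_of_injective Λ hΛi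
  set a : Fin r → Fin n → ℝ := fun s i => c.coord s (ρ (Pi.single i 1)) with ha
  have hcoord : ∀ s, c.coord s = ∑ i, a s i • l i := by
    intro s
    apply LinearMap.ext
    intro x
    have h1 : ρ (Λ x) = x := congrFun (congrArg DFunLike.coe hρ) x
    have h2 : Λ x = ∑ i, (l i x) • (Pi.single i (1 : ℝ) : Fin n → ℝ) := by
      funext k
      simp [hΛ, Finset.sum_apply, Pi.single_apply]
    conv_lhs => rw [← h1, h2]
    rw [map_sum, map_sum, LinearMap.sum_apply]
    refine Finset.sum_congr rfl fun i _ => ?_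
    rw [map_smul, map_smul, LinearMap.smul_apply, smul_eq_mul, smul_eq_mul, mul_comm]
  set m : Fin r → T →ₗ[ℝ] ℝ := fun s => ∑ i, a s i • l (j i) with hm
  have hσX : ∀ s, σ (X s) = linP c (m s) := by
    intro s
    rw [← linend_coord c s, hcoord s, linend_linP_sum, map_sum, hm, linend_linP_sum]
    refine Finset.sum_congr rfl fun i _ => ?_
    rw [map_smul, hj]
  set g : T →ₗ[ℝ] T := ∑ s, (m s).smulRight (c s) with hg
  refine ⟨g, fun p x => ?_⟩
  have hgs : ∀ s, c.repr (g x) s = m s x := by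
    intro s
    rw [hg, LinearMap.sum_apply, map_sum]
    simp [Finsupp.single_apply]
  unfold val
  have h3 : (MvPolynomial.aeval (fun i => c.repr x i) : MvPolynomial (Fin r) ℝ →ₐ[ℝ] ℝ).comp σ =
      MvPolynomial.aeval (fun s => m s x) := by
    apply MvPolynomial.algHom_ext
    intro s
    rw [AlgHom.comp_apply, hσX, MvPolynomial.aeval_X]
    have := linP_eval c x (m s)
    unfold val at this
    rw [MvPolynomial.aeval_eq_eval]
    exact this
  have h4 := congrArg (fun φ : MvPolynomial (Fin r) ℝ →ₐ[ℝ] ℝ => φ p) h3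
  simp only [AlgHom.comp_apply] at h4
  rw [MvPolynomial.aeval_eq_eval, MvPolynomial.aeval_eq_eval] at h4
  have h5 : (fun i => c.repr (g x) i) = fun s => m s x := funext hgs
  rw [h5]
  exact h4

end Pool.Agent.Helper80.CB
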