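import Pool.Agent.Helper80.CB.Stmts

namespace Pool.Agent.Helper80.CB

open Matrix MvPolynomial

theorem st_ODD (hW : ST_WPERM) : ST_ODD := by
  intro n r D t ht hgen c τ hinj w hw hconj π hπ hodd
  by_contra hno
  push Not at hno
  -- the subgroup of elements acting by even permutations
  set H : Subgroup (t ≃ₗ[ℝ] t) :=
    { carrier := {v | ∃ σ : Equiv.Perm (Fin n), (∀ (i : Fin n) (x : t), wt t i (v x) = wt t (σ i) x) ∧
        Equiv.Perm.sign σ = 1}
      one_mem' := ⟨1, fun i x => rfl, map_one _⟩
      mul_mem' := by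
        rintro v v' ⟨σ, h1, h2⟩ ⟨σ', h1', h2'⟩
        refine ⟨σ' * σ, fun i x => ?_, ?_⟩
        · show wt t i (v (v' x)) = wt t (σ' (σ i)) x
          rw [h1, h1']
        · rw [map_mul, h2, h2', one_mul]
      inv_mem' := by
        rintro v ⟨σ, h1, h2⟩
        refine ⟨σ⁻¹, fun i x => ?_, ?_⟩
        · have h3 : v (v⁻¹ x) = x := by
            show (v * v⁻¹) x = x
            rw [mul_inv_cancel]; rfl
          have h4 := h1 (σ⁻¹ i) (v⁻¹ x)
          rw [h3] at h4
          rw [h4]
          congr 1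
          simp
        · rw [Equiv.Perm.sign_inv, h2] } with hH
  have hle : Subgroup.closure (reflSet D t) ≤ H := by
    rw [Subgroup.closure_le]
    rintro s ⟨E, α, v, hs⟩
    have hsW : s ∈ weyl D t := by
      rw [hgen]
      exact Subgroup.subset_closure ⟨E, α, v, hs⟩
    obtain ⟨σ, hσ⟩ := hW n D t ht s hsW
    refine ⟨σ, hσ, ?_⟩
    rcases Int.units_eq_one_or (Equiv.Perm.sign σ) with h | h
    · exact h
    · exact absurd h (hno E α v s σ hs hσ)
  rw [← hgen] at hle
  obtain ⟨σ, hσ, hsign⟩ := hle hw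
  have heq : π = σ := by
    ext i
    congr 1
    apply hinj
    show lval c τ (wt t (π i)) = lval c τ (wt t (σ i))
    rw [← hπ i, hconj (wt t i)]
    congr 1
    apply LinearMap.ext
    intro x
    exact hσ i x
  rw [heq, hsign] at hodd
  exact absurd hodd (by decide)

end Pool.Agent.Helper80.CB
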