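import Pool.Agent.Helper80.CB.Stmts

namespace Pool.Agent.Helper80.CB

open Matrix MvPolynomial

/-- the exponential of a multiple of an idempotent -/
theorem su2_exp_idem {A : Type*} [NormedRing A] [NormedAlgebra ℂ A] [CompleteSpace A] (P : A)
    (hP : P * P = P) (c : ℂ) : NormedSpace.exp (c • P) = 1 + (Complex.exp c - 1) • P := by
  have h1 : HasSum (fun n : ℕ => ((n.factorial : ℂ)⁻¹) • (c • P) ^ n) (NormedSpace.exp (c • P)) :=
    NormedSpace.exp_series_hasSum_exp' (𝕂 := ℂ) (c • P)
  have h2 : HasSum (fun n : ℕ => ((n.factorial : ℂ)⁻¹) • c ^ n) (NormedSpace.exp c) :=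
    NormedSpace.exp_series_hasSum_exp' (𝕂 := ℂ) c
  rw [← Complex.exp_eq_exp_ℂ] at h2
  have h3 : HasSum (fun n : ℕ => (((n.factorial : ℂ)⁻¹) • c ^ n) • P) (Complex.exp c • P) :=
    h2.smul_const P
  have h4 : HasSum (fun n : ℕ => if n = 0 then (1 - P : A) else 0) (1 - P) :=
    hasSum_ite_eq 0 (1 - P)
  have hpow : ∀ n : ℕ, n ≠ 0 → P ^ n = P := by
    intro n hn
    induction n with
    | zero => exact absurd rfl hn
    | succ n ih =>
      rcases Nat.eq_zero_or_pos n with h0 | h0
      · rw [h0, zero_add, pow_one]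
      · rw [pow_succ, ih (by omega), hP]
  have h5 := h3.add h4
  have h6 : (fun n : ℕ => (((n.factorial : ℂ)⁻¹) • c ^ n) • P + if n = 0 then (1 - P : A) else 0) =
      fun n : ℕ => ((n.factorial : ℂ)⁻¹) • (c • P) ^ n := by
    funext n
    rw [smul_pow]
    by_cases hn : n = 0
    · rw [if_pos hn, hn]
      simp
    · rw [if_neg hn, hpow n hn, add_zero, smul_smul, smul_eq_mul]
  rw [h6] at h5
  rw [h1.unique h5, sub_smul, one_smul]
  abel

set_option backward.isDefEq.respectTransparency false in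
open scoped Matrix.Norms.Operator in
theorem su2_exp_idem_mat {n : ℕ} (P : Mat n) (hP : P * P = P) (c : ℂ) :
    NormedSpace.exp (c • P) = 1 + (Complex.exp c - 1) • P :=
  su2_exp_idem P hP c

/-- the exponential of an involution of a subspace -/
theorem su2_exp {n : ℕ} {X P : Mat n} (h1 : X * X = P) (h2 : P * P = P) (h3 : X * P = X)
    (h4 : P * X = X) (θ : ℝ) :
    NormedSpace.exp (Complex.I • ((θ : ℂ) • X)) =
      1 + ((Real.cos θ : ℂ) - 1) • P + (Complex.I * (Real.sin θ : ℂ)) • X := by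
  set Pp : Mat n := (1 / 2 : ℂ) • (P + X) with hPp
  set Pm : Mat n := (1 / 2 : ℂ) • (P - X) with hPm
  have hpp : Pp * Pp = Pp := by
    rw [hPp]
    rw [Matrix.smul_mul, Matrix.mul_smul, Matrix.add_mul, Matrix.mul_add, Matrix.mul_add, h1, h2,
      h3, h4]
    module
  have hmm : Pm * Pm = Pm := by
    rw [hPm]
    rw [Matrix.smul_mul, Matrix.mul_smul, Matrix.sub_mul, Matrix.mul_sub, Matrix.mul_sub, h1, h2,
      h3, h4]
    module
  have hpm : Pp * Pm = 0 := by
    rw [hPp, hPm]
    rw [Matrix.smul_mul, Matrix.mul_smul, Matrix.add_mul, Matrix.mul_sub, Matrix.mul_sub, h1, h2,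
      h3, h4]
    module
  have hmp : Pm * Pp = 0 := by
    rw [hPp, hPm]
    rw [Matrix.smul_mul, Matrix.mul_smul, Matrix.sub_mul, Matrix.mul_add, Matrix.mul_add, h1, h2,
      h3, h4]
    module
  have hX : Complex.I • ((θ : ℂ) • X) = (Complex.I * θ) • Pp + (-(Complex.I * θ)) • Pm := by
    rw [hPp, hPm]
    module
  have hcomm : Commute ((Complex.I * θ) • Pp) ((-(Complex.I * θ)) • Pm) := by
    show (Complex.I * θ) • Pp * (-(Complex.I * θ)) • Pm = (-(Complex.I * θ)) • Pm * (Complex.I * θ) • Pp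
    rw [Matrix.smul_mul, Matrix.mul_smul, hpm, Matrix.smul_mul, Matrix.mul_smul, hmp]
    simp
  rw [hX, Matrix.exp_add_of_commute _ _ hcomm, su2_exp_idem_mat Pp hpp, su2_exp_idem_mat Pm hmm]
  rw [Matrix.add_mul, Matrix.one_mul, Matrix.smul_mul, Matrix.mul_add, Matrix.mul_one,
    Matrix.mul_smul, hpm, smul_zero, add_zero]
  have e1 : Complex.exp (Complex.I * θ) = (Real.cos θ : ℂ) + Complex.I * (Real.sin θ : ℂ) := by
    rw [mul_comm Complex.I (θ : ℂ), Complex.exp_mul_I, Complex.ofReal_cos, Complex.ofReal_sin]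
    ring
  have e2 : Complex.exp (-(Complex.I * θ)) = (Real.cos θ : ℂ) - Complex.I * (Real.sin θ : ℂ) := by
    have : -(Complex.I * θ) = ((-θ : ℝ) : ℂ) * Complex.I := by push_cast; ring
    rw [this, Complex.exp_mul_I, ← Complex.ofReal_cos, ← Complex.ofReal_sin, Real.cos_neg,
      Real.sin_neg]
    push_cast
    ring
  rw [e1, e2, hPp, hPm]
  module

/-- parameters of an element of `SU(2)` -/
theorem su2_param {α β : ℂ} (h : ‖α‖ ^ 2 + ‖β‖ ^ 2 = 1) : ∃ (θ r : ℝ) (z : ℂ),
    (Real.cos θ : ℂ) + Complex.I * (Real.sin θ : ℂ) * r = α ∧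
    Complex.I * (Real.sin θ : ℂ) * z = -(starRingEnd ℂ) β ∧
    Complex.I * (Real.sin θ : ℂ) * (starRingEnd ℂ) z = β ∧ r ^ 2 + ‖z‖ ^ 2 = 1 := by
  have hα : ‖α‖ ^ 2 = α.re ^ 2 + α.im ^ 2 := by
    rw [← Complex.normSq_eq_norm_sq, Complex.normSq_apply]; ring
  have hre : α.re ^ 2 ≤ 1 := by nlinarith [sq_nonneg α.im, sq_nonneg ‖β‖]
  have hre1 : -1 ≤ α.re := by nlinarith
  have hre2 : α.re ≤ 1 := by nlinarith
  set θ := Real.arccos α.re with hθ
  have hcos : Real.cos θ = α.re := Real.cos_arccos hre1 hre2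
  have hsin : Real.sin θ ^ 2 = α.im ^ 2 + ‖β‖ ^ 2 := by
    have := Real.sin_sq_add_cos_sq θ
    rw [hcos] at this
    linarith
  by_cases h0 : Real.sin θ = 0
  · rw [h0] at hsin
    have him : α.im = 0 := by nlinarith [sq_nonneg α.im, sq_nonneg ‖β‖]
    have hβ : β = 0 := by
      have : ‖β‖ ^ 2 = 0 := by nlinarith [sq_nonneg α.im, sq_nonneg ‖β‖]
      exact norm_eq_zero.1 (pow_eq_zero_iff (by norm_num) |>.1 this)
    refine ⟨θ, 1, 0, ?_, ?_, ?_, by simp⟩
    · rw [h0, hcos]
      apply Complex.ext <;> simp [him]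
    · rw [h0, hβ]; simp
    · rw [h0, hβ]; simp
  · have hs : (Real.sin θ : ℂ) ≠ 0 := by exact_mod_cast h0
    refine ⟨θ, α.im / Real.sin θ, (starRingEnd ℂ) (β / (Complex.I * (Real.sin θ : ℂ))), ?_, ?_, ?_,
      ?_⟩
    · rw [hcos, Complex.ofReal_div]
      have : Complex.I * (Real.sin θ : ℂ) * ((α.im : ℂ) / (Real.sin θ : ℂ)) = (α.im : ℂ) * Complex.I := by
        field_simp
      rw [this]
      exact Complex.re_add_im α
    · rw [map_div₀, map_mul, Complex.conj_I, Complex.conj_ofReal]
      field_simp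
    · rw [Complex.conj_conj]
      field_simp
    · rw [RCLike.norm_conj, norm_div, norm_mul, Complex.norm_I, Complex.norm_real, div_pow, div_pow,
        one_mul, Real.norm_eq_abs, sq_abs, ← add_div, ← hsin]
      exact div_self (pow_ne_zero 2 h0)

theorem su2_mulVec {n : ℕ} {i j : Fin n} (hij : i ≠ j) (a b c d : ℂ) (y : Fin n → ℂ) (k : Fin n) :
    ((a • Matrix.single i i (1 : ℂ) + b • Matrix.single i j 1 + c • Matrix.single j i 1 +
      d • Matrix.single j j 1 : Mat n) *ᵥ y) k =
      if k = i then a * y i + b * y j else if k = j then c * y i + d * y j else 0 := by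
  have h : ∀ (p q : Fin n), (Matrix.single p q (1 : ℂ) *ᵥ y) k = if k = p then y q else 0 := by
    intro p q
    rw [Matrix.mulVec, dotProduct]
    simp only [Matrix.single_apply]
    by_cases hk : k = p
    · rw [if_pos hk]
      rw [Finset.sum_eq_single q]
      · simp [hk]
      · intro m _ hm
        rw [if_neg]
        · simp
        · rintro ⟨-, h2⟩
          exact hm h2.symm
      · intro hq; exact absurd (Finset.mem_univ q) hq
    · rw [if_neg hk]
      apply Finset.sum_eq_zero
      intro m _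
      rw [if_neg]
      · simp
      · rintro ⟨h1, -⟩
        exact hk h1.symm
  simp only [Matrix.add_mulVec, Matrix.smul_mulVec, Pi.add_apply, Pi.smul_apply, smul_eq_mul, h]
  by_cases h1 : k = i
  · subst h1
    simp [hij]
  · by_cases h2 : k = j
    · subst h2
      simp [h1]
    · simp [h1, h2]

/-- the group element with parameters `α`, `β` -/
theorem su2_elt {n : ℕ} (D : Cpt n) {i j : Fin n} {a : ℂ} (hij : i ≠ j) (ha : a ≠ 0)
    (hE : ∃ A ∈ D.h, ∃ B ∈ D.h, a • Matrix.single i j (1 : ℂ) = A + Complex.I • B)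
    {α β : ℂ} (h : ‖α‖ ^ 2 + ‖β‖ ^ 2 = 1) :
    ∃ g ∈ D.S, ∀ y : Fin n → ℂ, ∀ k, (g *ᵥ y) k =
      if k = i then α * y i - (starRingEnd ℂ) β * y j else
      if k = j then β * y i + (starRingEnd ℂ) α * y j else y k := by
  obtain ⟨A, hA, B, hB, hAB⟩ := hE
  have hAh := D.herm A hA
  have hBh := D.herm B hB
  have hABs : (starRingEnd ℂ) a • Matrix.single j i (1 : ℂ) = A - Complex.I • B := by
    have h1 := congrArg Matrix.conjTranspose hAB
    rw [Matrix.conjTranspose_smul, Matrix.conjTranspose_add, Matrix.conjTranspose_smul, hAh, hBh,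
      Matrix.conjTranspose_single] at h1
    simp only [star_one, RCLike.star_def, Complex.conj_I] at h1
    rw [h1]
    module
  -- all `z E_ij + conj z E_ji` are in `h`
  have hz : ∀ z : ℂ, (z • Matrix.single i j (1 : ℂ) + (starRingEnd ℂ) z • Matrix.single j i 1 : Mat n)
      ∈ D.h := by
    intro z
    set u : ℂ := z / a with hu
    have hza : z = u * a := by rw [hu]; field_simp
    have e : (z • Matrix.single i j (1 : ℂ) + (starRingEnd ℂ) z • Matrix.single j i 1 : Mat n) =
        (2 * u.re) • A - (2 * u.im) • B := by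
      rw [hza, map_mul, mul_smul, mul_smul, hAB, hABs]
      have hur : u = (u.re : ℂ) + (u.im : ℂ) * Complex.I := (Complex.re_add_im u).symm
      have huc : (starRingEnd ℂ) u = (u.re : ℂ) - (u.im : ℂ) * Complex.I := by
        apply Complex.ext <;> simp
      ext p q
      simp only [Matrix.add_apply, Matrix.sub_apply, Matrix.smul_apply, smul_eq_mul,
        Complex.real_smul]
      rw [huc]
      nth_rewrite 1 [hur]
      push_cast
      linear_combination (2 * (u.im : ℂ) * B p q) * Complex.I_mul_I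
    rw [e]
    exact D.h.sub_mem (D.h.smul_mem _ hA) (D.h.smul_mem _ hB)
  -- `E_ii - E_jj`
  have hd : (Matrix.single i i (1 : ℂ) - Matrix.single j j 1 : Mat n) ∈ D.h := by
    have h1 := D.brk _ (hz 1) _ (hz Complex.I)
    have e : Complex.I • ((((1 : ℂ) • Matrix.single i j (1 : ℂ) +
        (starRingEnd ℂ) 1 • Matrix.single j i 1 : Mat n)) *
        (Complex.I • Matrix.single i j (1 : ℂ) + (starRingEnd ℂ) Complex.I • Matrix.single j i 1) -
        (Complex.I • Matrix.single i j (1 : ℂ) + (starRingEnd ℂ) Complex.I • Matrix.single j i 1) *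
        ((1 : ℂ) • Matrix.single i j (1 : ℂ) + (starRingEnd ℂ) 1 • Matrix.single j i 1)) =
        (2 : ℝ) • (Matrix.single i i (1 : ℂ) - Matrix.single j j 1 : Mat n) := by
      rw [map_one, Complex.conj_I, one_smul, one_smul]
      simp only [Matrix.add_mul, Matrix.mul_add, Matrix.smul_mul, Matrix.mul_smul,
        Matrix.single_mul_single_same, Matrix.single_mul_single_of_ne _ _ _ _ hij,
        Matrix.single_mul_single_of_ne _ _ _ _ hij.symm, smul_zero, mul_one, add_zero, zero_add]
      ext p q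
      simp only [Matrix.add_apply, Matrix.sub_apply, Matrix.smul_apply, smul_eq_mul,
        Complex.real_smul]
      push_cast
      linear_combination (-2 * (Matrix.single i i (1 : ℂ) p q) + 2 * (Matrix.single j j (1 : ℂ) p q)) *
        Complex.I_mul_I
    rw [e] at h1
    have h2 := D.h.smul_mem (1 / 2 : ℝ) h1
    rw [smul_smul] at h2
    norm_num at h2
    exact h2
  obtain ⟨θ, r, z, e1, e2, e3, e4⟩ := su2_param h
  set X : Mat n := (r : ℂ) • Matrix.single i i (1 : ℂ) + z • Matrix.single i j 1 +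
    (starRingEnd ℂ) z • Matrix.single j i 1 + (-(r : ℂ)) • Matrix.single j j 1 with hX
  set P : Mat n := Matrix.single i i (1 : ℂ) + Matrix.single j j 1 with hP
  have hXh : X ∈ D.h := by
    have e : X = r • (Matrix.single i i (1 : ℂ) - Matrix.single j j 1 : Mat n) +
        (z • Matrix.single i j (1 : ℂ) + (starRingEnd ℂ) z • Matrix.single j i 1 : Mat n) := by
      rw [hX]
      ext p q
      simp only [Matrix.add_apply, Matrix.sub_apply, Matrix.smul_apply, smul_eq_mul,
        Complex.real_smul]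
      ring
    rw [e]
    exact D.h.add_mem (D.h.smul_mem _ hd) (hz z)
  have hrz : (r : ℂ) * r + z * (starRingEnd ℂ) z = 1 := by
    rw [Complex.mul_conj, Complex.normSq_eq_norm_sq]
    have : ((r ^ 2 + ‖z‖ ^ 2 : ℝ) : ℂ) = 1 := by rw [e4]; simp
    push_cast at this ⊢
    linear_combination this
  have hXX : X * X = P := by
    rw [hX, hP]
    simp only [Matrix.add_mul, Matrix.mul_add, Matrix.smul_mul, Matrix.mul_smul,
      Matrix.single_mul_single_same, Matrix.single_mul_single_of_ne _ _ _ _ hij,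
      Matrix.single_mul_single_of_ne _ _ _ _ hij.symm, smul_zero, mul_one, add_zero, zero_add]
    ext p q
    simp only [Matrix.add_apply, Matrix.smul_apply, smul_eq_mul]
    linear_combination ((Matrix.single i i (1 : ℂ) p q) + (Matrix.single j j (1 : ℂ) p q)) * hrz
  have hPP : P * P = P := by
    rw [hP]
    simp only [Matrix.add_mul, Matrix.mul_add, Matrix.single_mul_single_same,
      Matrix.single_mul_single_of_ne _ _ _ _ hij,
      Matrix.single_mul_single_of_ne _ _ _ _ hij.symm, mul_one, add_zero, zero_add]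
  have hXP : X * P = X := by
    rw [hX, hP]
    simp only [Matrix.add_mul, Matrix.mul_add, Matrix.smul_mul, Matrix.single_mul_single_same,
      Matrix.single_mul_single_of_ne _ _ _ _ hij,
      Matrix.single_mul_single_of_ne _ _ _ _ hij.symm, smul_zero, mul_one, add_zero, zero_add]
    abel
  have hPX : P * X = X := by
    rw [hX, hP]
    simp only [Matrix.add_mul, Matrix.mul_add, Matrix.mul_smul, Matrix.single_mul_single_same,
      Matrix.single_mul_single_of_ne _ _ _ _ hij,
      Matrix.single_mul_single_of_ne _ _ _ _ hij.symm, mul_one, add_zero, zero_add]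
  have hθX : θ • X ∈ D.h := D.h.smul_mem θ hXh
  have hg := D.exp_mem _ hθX
  have hsm : (θ • X : Mat n) = (θ : ℂ) • X := by
    ext p q
    simp only [Matrix.smul_apply, Complex.real_smul, smul_eq_mul]
  rw [hsm, su2_exp hXX hPP hXP hPX θ] at hg
  refine ⟨_, hg, fun y k => ?_⟩
  have hsum : (1 + ((Real.cos θ : ℂ) - 1) • P + (Complex.I * (Real.sin θ : ℂ)) • X : Mat n) =
      1 + ((α - 1) • Matrix.single i i (1 : ℂ) + (-(starRingEnd ℂ) β) • Matrix.single i j 1 +
        β • Matrix.single j i 1 + ((starRingEnd ℂ) α - 1) • Matrix.single j j 1) := by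
    have hc : (starRingEnd ℂ) α = (Real.cos θ : ℂ) - Complex.I * (Real.sin θ : ℂ) * r := by
      rw [← e1]
      simp only [map_add, map_mul, Complex.conj_I, Complex.conj_ofReal]
      ring
    rw [hc, ← e2, ← e1]
    nth_rewrite 1 [← e3]
    rw [hX, hP]
    module
  rw [hsum, Matrix.add_mulVec, Matrix.one_mulVec, Pi.add_apply, su2_mulVec hij]
  by_cases h1 : k = i
  · subst h1
    simp only [if_true]
    ring
  · by_cases h2 : k = j
    · subst h2
      simp only [if_neg h1, if_true]
      ring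
    · simp only [if_neg h1, if_neg h2, add_zero]

theorem st_SU2 : ST_SU2 := by
  intro n D i j a hij ha hE x x' hsupp hnorm
  set s : ℝ := ‖x i‖ ^ 2 + ‖x j‖ ^ 2 with hs
  rcases eq_or_lt_of_le (show 0 ≤ s by positivity) with h0 | h0
  · -- trivial case
    have hx : x = 0 := by
      funext k
      by_cases h1 : k = i
      · rw [h1]
        have : ‖x i‖ ^ 2 = 0 := by nlinarith [sq_nonneg ‖x i‖, sq_nonneg ‖x j‖]
        exact norm_eq_zero.1 (pow_eq_zero_iff (by norm_num) |>.1 this)
      · by_cases h2 : k = j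
        · rw [h2]
          have : ‖x j‖ ^ 2 = 0 := by nlinarith [sq_nonneg ‖x i‖, sq_nonneg ‖x j‖]
          exact norm_eq_zero.1 (pow_eq_zero_iff (by norm_num) |>.1 this)
        · exact (hsupp k h1 h2).1
    have hx' : x' = 0 := by
      rw [← h0] at hnorm
      funext k
      by_cases h1 : k = i
      · rw [h1]
        have : ‖x' i‖ ^ 2 = 0 := by nlinarith [sq_nonneg ‖x' i‖, sq_nonneg ‖x' j‖]
        exact norm_eq_zero.1 (pow_eq_zero_iff (by norm_num) |>.1 this)
      · by_cases h2 : k = j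
        · rw [h2]
          have : ‖x' j‖ ^ 2 = 0 := by nlinarith [sq_nonneg ‖x' i‖, sq_nonneg ‖x' j‖]
          exact norm_eq_zero.1 (pow_eq_zero_iff (by norm_num) |>.1 this)
        · exact (hsupp k h1 h2).2
    exact ⟨1, D.one_mem, by rw [Matrix.one_mulVec, hx, hx'], fun y _ _ => Matrix.one_mulVec y⟩
  have hsC : (s : ℂ) ≠ 0 := by exact_mod_cast h0.ne'
  have hsx : (s : ℂ) = x i * (starRingEnd ℂ) (x i) + x j * (starRingEnd ℂ) (x j) := by
    rw [Complex.mul_conj, Complex.mul_conj, Complex.normSq_eq_norm_sq, Complex.normSq_eq_norm_sq, hs]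
    push_cast; ring
  have hsx' : (s : ℂ) = x' i * (starRingEnd ℂ) (x' i) + x' j * (starRingEnd ℂ) (x' j) := by
    rw [Complex.mul_conj, Complex.mul_conj, Complex.normSq_eq_norm_sq, Complex.normSq_eq_norm_sq,
      hnorm]
    push_cast; ring
  set α : ℂ := (x' i * (starRingEnd ℂ) (x i) + (starRingEnd ℂ) (x' j) * x j) / s with hα
  set β : ℂ := (x' j * (starRingEnd ℂ) (x i) - (starRingEnd ℂ) (x' i) * x j) / s with hβ
  have hαc : (starRingEnd ℂ) α =
      ((starRingEnd ℂ) (x' i) * x i + x' j * (starRingEnd ℂ) (x j)) / s := by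
    rw [hα, map_div₀, map_add, map_mul, map_mul, Complex.conj_conj, Complex.conj_conj,
      Complex.conj_ofReal]
  have hβc : (starRingEnd ℂ) β =
      ((starRingEnd ℂ) (x' j) * x i - x' i * (starRingEnd ℂ) (x j)) / s := by
    rw [hβ, map_div₀, map_sub, map_mul, map_mul, Complex.conj_conj, Complex.conj_conj,
      Complex.conj_ofReal]
  have hnormαβ : ‖α‖ ^ 2 + ‖β‖ ^ 2 = 1 := by
    have h1 : ((‖α‖ ^ 2 + ‖β‖ ^ 2 : ℝ) : ℂ) = 1 := by
      push_cast
      have ha : ((‖α‖ : ℂ)) ^ 2 = α * (starRingEnd ℂ) α := by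
        rw [Complex.mul_conj, Complex.normSq_eq_norm_sq]; push_cast; ring
      have hb : ((‖β‖ : ℂ)) ^ 2 = β * (starRingEnd ℂ) β := by
        rw [Complex.mul_conj, Complex.normSq_eq_norm_sq]; push_cast; ring
      rw [ha, hb, hαc, hβc, hα, hβ]
      have hss : (s : ℂ) * s = (x i * (starRingEnd ℂ) (x i) + x j * (starRingEnd ℂ) (x j)) *
          (x' i * (starRingEnd ℂ) (x' i) + x' j * (starRingEnd ℂ) (x' j)) := by
        nth_rewrite 1 [hsx]
        rw [hsx']
      field_simp
      linear_combination -hss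
    exact_mod_cast h1
  obtain ⟨g, hg, hgy⟩ := su2_elt D hij ha hE hnormαβ
  refine ⟨g, hg, ?_, ?_⟩
  · funext k
    rw [hgy x k]
    by_cases h1 : k = i
    · rw [if_pos h1, h1, hβc, hα]
      field_simp
      linear_combination (-x' i) * hsx
    · rw [if_neg h1]
      by_cases h2 : k = j
      · rw [if_pos h2, h2, hαc, hβ]
        field_simp
        linear_combination (-x' j) * hsx
      · rw [if_neg h2, (hsupp k h1 h2).1, (hsupp k h1 h2).2]
  · intro y hyi hyj
    funext k
    rw [hgy y k, hyi, hyj]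
    by_cases h1 : k = i
    · rw [if_pos h1, h1, hyi]; ring
    · rw [if_neg h1]
      by_cases h2 : k = j
      · rw [if_pos h2, h2, hyj]; ring
      · rw [if_neg h2]

end Pool.Agent.Helper80.CB
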