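import Pool.Agent.Helper80.CB.Stmts

namespace Pool.Agent.Helper80.CB

open Matrix MvPolynomial

/-- an element of the torus is determined by its weights -/
theorem wfin_ext {n : ℕ} {D : Cpt n} {t : Submodule ℝ (Mat n)} (ht : Torus D t) {x y : t}
    (h : ∀ i, wt t i x = wt t i y) : x = y := by
  apply Subtype.ext
  ext i j
  by_cases hij : i = j
  · subst hij
    have hx := congrFun (congrFun (D.herm _ (ht.le x.2)) i) i
    have hy := congrFun (congrFun (D.herm _ (ht.le y.2)) i) i
    rw [Matrix.conjTranspose_apply] at hx hy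
    have h1 : ((x : Mat n) i i).re = ((y : Mat n) i i).re := h i
    have h2 : ((x : Mat n) i i).im = 0 := Complex.conj_eq_iff_im.1 hx
    have h3 : ((y : Mat n) i i).im = 0 := Complex.conj_eq_iff_im.1 hy
    exact Complex.ext h1 (by rw [h2, h3])
  · rw [ht.diag _ x.2 i j hij, ht.diag _ y.2 i j hij]

theorem st_WFIN (hW : ST_WPERM) : ST_WFIN := by
  intro n D t ht
  have h := hW n D t ht
  choose σ hσ using h
  have hinj : Function.Injective (fun w : weyl D t => σ w.1 w.2) := by
    intro w w' hww
    apply Subtype.ext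
    apply LinearEquiv.ext
    intro x
    apply wfin_ext ht
    intro i
    rw [hσ w.1 w.2 i x, hσ w'.1 w'.2 i x]
    have : σ w.1 w.2 = σ w'.1 w'.2 := hww
    rw [this]
  exact Finite.of_injective _ hinj

end Pool.Agent.Helper80.CB
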