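import Pool.Agent.Helper80.CB.Stmts

namespace Pool.Agent.Helper80.CB

open Matrix MvPolynomial

theorem st_WMK : ST_WMK := by
  intro n D t ht g hg hz
  have hu := D.unit g hg
  set f : t →ₗ[ℝ] t :=
    { toFun := fun x => ⟨g * (x : Mat n) * gᴴ, hz x x.2⟩
      map_add' := by
        intro x y
        apply Subtype.ext
        show g * ((x : Mat n) + (y : Mat n)) * gᴴ = g * (x : Mat n) * gᴴ + g * (y : Mat n) * gᴴ
        rw [Matrix.mul_add, Matrix.add_mul]
      map_smul' := by
        intro a x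
        apply Subtype.ext
        show g * (a • (x : Mat n)) * gᴴ = a • (g * (x : Mat n) * gᴴ)
        rw [Matrix.mul_smul, Matrix.smul_mul] } with hf
  have hinj : Function.Injective f := by
    intro x y hxy
    apply Subtype.ext
    have h1 : g * (x : Mat n) * gᴴ = g * (y : Mat n) * gᴴ := congrArg Subtype.val hxy
    have h2 : ∀ z : Mat n, gᴴ * (g * z * gᴴ) * g = z := by
      intro z
      calc gᴴ * (g * z * gᴴ) * g = (gᴴ * g) * z * (gᴴ * g) := by simp only [Matrix.mul_assoc]
        _ = z := by rw [hu]; simp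
    rw [← h2 (x : Mat n), ← h2 (y : Mat n), h1]
  refine ⟨LinearEquiv.ofInjectiveEndo f hinj, ⟨g, hg, fun x => ?_⟩, fun x => ?_⟩
  · rw [LinearEquiv.coe_ofInjectiveEndo]
    rfl
  · rw [LinearEquiv.coe_ofInjectiveEndo]
    rfl

end Pool.Agent.Helper80.CB
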