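import Pool.Agent.Helper83.CB.Defs

open Filter Topology

namespace Pool.Agent.Helper83.CB

namespace GLOB

section

variable {n : ℕ} {N0 : E n → ℝ} {N : E (n + 1) → ℝ}

theorem norm_zero' {V : Type*} [AddCommGroup V] [Module ℂ V] {N : V → ℝ} (h : IsNorm N) :
    N 0 = 0 := by
  have := h.smul 0 0
  simpa using this

theorem inj (hN0 : IsNorm N0) (hN : IsNorm N) {L : E n →L[ℂ] E (n + 1)} (hL : L ∈ PP N0 N) :
    Function.Injective L := by
  rw [injective_iff_map_eq_zero]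
  intro z hz
  by_contra hne
  have h1 := hN0.pos z hne
  rw [← hL z, hz, norm_zero' hN] at h1
  exact lt_irrefl _ h1

theorem finrank_E (m : ℕ) : Module.finrank ℂ (E m) = m := by
  rw [finrank_euclideanSpace, Fintype.card_fin]

theorem finrank_rg {L : E n →L[ℂ] E (n + 1)} (hL : Function.Injective L) :
    Module.finrank ℂ (rg L) = n := by
  have h := LinearMap.finrank_range_of_inj (f := L.toLinearMap) hL
  rw [finrank_E] at h
  exact h

theorem finrank_im {L : E n →L[ℂ] E (n + 1)} (hL : Function.Injective L)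
    (W : Submodule ℂ (E n)) : Module.finrank ℂ (im L W) = Module.finrank ℂ W :=
  (Submodule.equivMapOfInjective L.toLinearMap hL W).finrank_eq.symm

theorem finrank_kr {m : ℕ} {f : E (m + 1) →L[ℂ] ℂ} (hf : f ≠ 0) :
    Module.finrank ℂ (kr f) = m := by
  have h1 := LinearMap.finrank_range_add_finrank_ker f.toLinearMap
  rw [finrank_E] at h1
  have h2 : LinearMap.range f.toLinearMap = ⊤ := by
    apply LinearMap.range_eq_top.2
    apply LinearMap.surjective
    intro h0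
    apply hf
    ext x
    exact congrFun (congrArg DFunLike.coe h0) x
  rw [h2, finrank_top, Module.finrank_self] at h1
  have h3 : Module.finrank ℂ (kr f) = Module.finrank ℂ (LinearMap.ker f.toLinearMap) := rfl
  omega

theorem rg_eq_kr {L : E n →L[ℂ] E (n + 1)} (hL : Function.Injective L)
    {f : E (n + 1) →L[ℂ] ℂ} (hf : f ≠ 0) (h : ∀ z, f (L z) = 0) : rg L = kr f := by
  apply Submodule.eq_of_le_of_finrank_eq
  · rintro _ ⟨z, rfl⟩
    exact h z
  · rw [finrank_rg hL, finrank_kr hf]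

theorem mem_im {L : E n →L[ℂ] E (n + 1)} {W : Submodule ℂ (E n)} {z : E n} (hz : z ∈ W) :
    L z ∈ im L W := ⟨z, hz, rfl⟩

theorem im_le_rg {L : E n →L[ℂ] E (n + 1)} {W : Submodule ℂ (E n)} : im L W ≤ rg L := by
  rintro _ ⟨z, -, rfl⟩
  exact ⟨z, rfl⟩

/-- uniqueness of the local span -/
theorem span_le {W1 : Submodule ℂ (E n)} {L0 L1 : E n →L[ℂ] E (n + 1)}
    {C0 C1 : Submodule ℂ (E (n + 1))} (h0 : LocSpan N0 N W1 L0 C0) (h1 : LocSpan N0 N W1 L1 C1)
    {δ : ℝ} (hδ : ∀ L ∈ PP N0 N, ‖L - L0‖ < δ → im L W1 ≤ C0) (hlt : ‖L1 - L0‖ < δ) :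
    C1 = C0 := by
  apply Submodule.eq_of_le_of_finrank_eq
  · refine (h1.span (δ - ‖L1 - L0‖) (by linarith)).trans ?_
    refine iSup_le ?_
    rintro ⟨L, hL, hLd⟩
    refine hδ L hL ?_
    have : ‖L - L0‖ ≤ ‖L - L1‖ + ‖L1 - L0‖ := by
      have e : L - L0 = (L - L1) + (L1 - L0) := by abel
      rw [e]; exact norm_add_le _ _
    linarith
  · rw [h0.dim, h1.dim]

end

end GLOB

open GLOB in
theorem st_GLOB (hLIFT : ST_LIFT) : ST_GLOB := by
  classical
  intro n N0 N hS W1 hW1 hWn hall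
  obtain ⟨hcpt, hlift⟩ := hLIFT n N0 N hS
  have hinj : ∀ L ∈ PP N0 N, Function.Injective L := fun L hL => inj hS.norm0 hS.norm hL
  -- the local span as a function
  choose! CC hCC using hall
  -- eventual constancy along sequences
  have hconst : ∀ (L : ℕ → E n →L[ℂ] E (n + 1)) (L0 : E n →L[ℂ] E (n + 1)), L0 ∈ PP N0 N →
      (∀ᶠ j in atTop, L j ∈ PP N0 N) → Tendsto L atTop (𝓝 L0) →
      ∀ᶠ j in atTop, CC (L j) = CC L0 := by
    intro L L0 h0 hL hlim
    obtain ⟨δ, hδ, hnear⟩ := (hCC L0 h0).near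
    have h1 : ∀ᶠ j in atTop, ‖L j - L0‖ < δ := by
      have := (tendsto_iff_norm_sub_tendsto_zero.1 hlim).eventually (gt_mem_nhds hδ)
      exact this
    filter_upwards [h1, hL] with j hj hj'
    exact span_le (hCC L0 h0) (hCC _ hj') hnear hj
  -- a starting point
  have hrank : 1 < Module.rank ℝ (E (n + 1) →L[ℂ] ℂ) := by
    have h2 : Module.finrank ℝ (E (n + 1) →L[ℂ] ℂ) = 2 * (n + 1) := by
      have h3 : Module.finrank ℂ (E (n + 1) →L[ℂ] ℂ) = n + 1 := by
        have e : (E (n + 1) →L[ℂ] ℂ) ≃ₗ[ℂ] (E (n + 1) →ₗ[ℂ] ℂ) :=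
          LinearMap.toContinuousLinearMap.symm
        rw [e.finrank_eq]
        have := Subspace.dual_finrank_eq (K := ℂ) (V := E (n + 1))
        rw [finrank_E] at this
        exact this
      rw [← Module.finrank_mul_finrank ℝ ℂ, Complex.finrank_real_complex, h3]
    have h4 : (1 : Cardinal) < (Module.finrank ℝ (E (n + 1) →L[ℂ] ℂ) : Cardinal) := by
      rw [h2]
      exact_mod_cast (by omega : 1 < 2 * (n + 1))
    have : Module.Finite ℝ (E (n + 1) →L[ℂ] ℂ) := Module.Finite.trans ℂ _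
    rwa [Module.finrank_eq_rank] at h4
  have hconn : IsConnected ({0}ᶜ : Set (E (n + 1) →L[ℂ] ℂ)) :=
    isConnected_compl_singleton_of_one_lt_rank hrank 0
  obtain ⟨f1, hf1⟩ := hconn.nonempty
  obtain ⟨L1, hL1, hrg1⟩ := hS.hyp f1 hf1
  set C0 := CC L1 with hC0
  set S : Set (E (n + 1) →L[ℂ] ℂ) := {f | ∃ L ∈ PP N0 N, rg L = kr f ∧ CC L = C0} with hSdef
  -- open
  have hopen : ∀ f ∈ S, f ≠ 0 → S ∈ 𝓝 f := by
    intro f hf hf0
    by_contra hno
    obtain ⟨L, hL, hrg, hc⟩ := hf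
    have hfr : ∃ᶠ g in 𝓝 f, g ∉ S := Filter.not_eventually.1 hno
    obtain ⟨g, hg, hgS⟩ := Filter.exists_seq_forall_of_frequently hfr
    obtain ⟨J, M, hM, hM2⟩ := hlift L g f hL hrg hf0 hg
    have h1 := hconst M L hL (eventually_atTop.2 ⟨J, fun j hj => (hM2 j hj).1⟩) hM
    obtain ⟨j, hj1, hj2⟩ := (h1.and (eventually_ge_atTop J)).exists
    exact hgS j ⟨M j, (hM2 j hj2).1, (hM2 j hj2).2, by rw [hj1, hc]⟩
  -- closed
  have hclosed : ∀ f : E (n + 1) →L[ℂ] ℂ, f ≠ 0 → f ∈ closure S → f ∈ S := by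
    intro f hf0 hf
    obtain ⟨g, hgS, hg⟩ := mem_closure_iff_seq_limit.1 hf
    choose L hL hrg hc using hgS
    obtain ⟨L0, hL0, φ, hφ, hlim⟩ := hcpt.tendsto_subseq hL
    refine ⟨L0, hL0, ?_, ?_⟩
    · apply rg_eq_kr (hinj L0 hL0) hf0
      intro z
      have h1 : Tendsto (fun j => g (φ j) (L (φ j) z)) atTop (𝓝 (f (L0 z))) := by
        have h2 : Tendsto (fun j => g (φ j)) atTop (𝓝 f) := hg.comp hφ.tendsto_atTop
        have h3 : Tendsto (fun j => L (φ j) z) atTop (𝓝 (L0 z)) := by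
          have := (ContinuousLinearMap.apply ℂ (E (n + 1)) z).continuous.tendsto L0
          exact this.comp hlim
        exact (isBoundedBilinearMap_apply.continuous.tendsto (f, L0 z)).comp (h2.prodMk_nhds h3)
      have h4 : (fun j => g (φ j) (L (φ j) z)) = fun _ => 0 := by
        funext j
        have : L (φ j) z ∈ rg (L (φ j)) := ⟨z, rfl⟩
        rw [hrg] at this
        exact this
      rw [h4] at h1
      exact (tendsto_nhds_unique h1 tendsto_const_nhds)
    · have h1 := hconst (L ∘ φ) L0 hL0 (Eventually.of_forall fun j => hL _) hlim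
      obtain ⟨j, hj⟩ := h1.exists
      rw [← hj]
      exact hc _
  -- everything
  have hall' : ({0}ᶜ : Set (E (n + 1) →L[ℂ] ℂ)) ⊆ S := by
    have hU : IsOpen (S ∩ {0}ᶜ : Set (E (n + 1) →L[ℂ] ℂ)) := by
      rw [isOpen_iff_mem_nhds]
      intro f hf
      exact Filter.inter_mem (hopen f hf.1 hf.2) (isOpen_compl_singleton.mem_nhds hf.2)
    have hV : IsOpen ((closure S)ᶜ : Set (E (n + 1) →L[ℂ] ℂ)) := isClosed_closure.isOpen_compl
    have hcov : ({0}ᶜ : Set (E (n + 1) →L[ℂ] ℂ)) ⊆ (S ∩ {0}ᶜ) ∪ (closure S)ᶜ := by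
      intro f hf
      by_cases h : f ∈ closure S
      · exact Or.inl ⟨hclosed f hf h, hf⟩
      · exact Or.inr h
    have hdisj : ({0}ᶜ : Set (E (n + 1) →L[ℂ] ℂ)) ∩ ((S ∩ {0}ᶜ) ∩ (closure S)ᶜ) = ∅ := by
      ext f
      simp only [Set.mem_inter_iff, Set.mem_compl_iff, Set.mem_empty_iff_false, iff_false]
      rintro ⟨-, ⟨h1, -⟩, h2⟩
      exact h2 (subset_closure h1)
    intro f hf
    by_contra hfS
    have hfc : f ∈ (closure S)ᶜ := fun h => hfS (hclosed f hf h)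
    have := hconn.isPreconnected _ _ hU hV hcov
      ⟨f1, hf1, ⟨L1, hL1, hrg1, rfl⟩, hf1⟩ ⟨f, hf, hfc⟩
    rw [hdisj] at this
    exact Set.not_nonempty_empty this
  -- a functional vanishing on `C0`
  have hC0dim : Module.finrank ℂ C0 ≤ n := by
    rw [(hCC L1 hL1).dim]; exact hWn
  have hC0top : C0 < ⊤ := by
    rw [lt_top_iff_ne_top]
    intro h
    rw [h, finrank_top, finrank_E] at hC0dim
    omega
  obtain ⟨f', hf'0, hf'⟩ := Submodule.exists_le_ker_of_lt_top C0 hC0top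
  set f : E (n + 1) →L[ℂ] ℂ := LinearMap.toContinuousLinearMap f' with hfdef
  have hf0 : f ≠ 0 := by
    intro h
    apply hf'0
    ext x
    exact congrFun (congrArg DFunLike.coe h) x
  obtain ⟨L, hL, hrg, hc⟩ := hall' hf0
  have hzero : ∀ (ν : E (n + 1) →L[ℂ] ℂ), ∀ w ∈ W1, ν (L w) = 0 := by
    intro ν w hw
    set g : ℕ → E (n + 1) →L[ℂ] ℂ := fun j => f + ((1 / ((j : ℝ) + 1) : ℝ) : ℂ) • ν with hg
    have hglim : Tendsto g atTop (𝓝 f) := by
      have h1 : Tendsto (fun j : ℕ => ((1 / ((j : ℝ) + 1) : ℝ) : ℂ)) atTop (𝓝 ((0 : ℝ) : ℂ)) :=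
        (Complex.continuous_ofReal.tendsto 0).comp tendsto_one_div_add_atTop_nhds_zero_nat
      have h2 := (tendsto_const_nhds (x := f)).add (h1.smul_const ν)
      have h3 : f + ((0 : ℝ) : ℂ) • ν = f := by ext x; simp
      have h4 : Tendsto g atTop (𝓝 (f + ((0 : ℝ) : ℂ) • ν)) := h2
      rwa [h3] at h4
    obtain ⟨J, M, hM, hM2⟩ := hlift L g f hL hrg hf0 hglim
    obtain ⟨δ, hδ, hnear⟩ := (hCC L hL).near
    have h1 : ∀ᶠ j in atTop, ‖M j - L‖ < δ :=
      (tendsto_iff_norm_sub_tendsto_zero.1 hM).eventually (gt_mem_nhds hδ)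
    have h2 : ∀ᶠ j in atTop, ν (M j w) = 0 := by
      filter_upwards [h1, eventually_ge_atTop J] with j hj hJ
      obtain ⟨hMj, hrgj⟩ := hM2 j hJ
      have h3 : M j w ∈ C0 := by
        rw [← hc]
        exact hnear _ hMj hj (mem_im hw)
      have h4 : f (M j w) = 0 := hf' h3
      have h5 : M j w ∈ kr (g j) := by
        rw [← hrgj]
        exact ⟨w, rfl⟩
      have h6 : g j (M j w) = 0 := h5
      rw [hg] at h6
      have h7 : f (M j w) + ((1 / ((j : ℝ) + 1) : ℝ) : ℂ) * ν (M j w) = 0 := h6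
      rw [h4, zero_add] at h7
      refine (mul_eq_zero.1 h7).resolve_left ?_
      have : (0 : ℝ) < 1 / ((j : ℝ) + 1) := by positivity
      exact_mod_cast this.ne'
    have h3 : Tendsto (fun j => ν (M j w)) atTop (𝓝 (ν (L w))) := by
      have h4 : Tendsto (fun j => M j w) atTop (𝓝 (L w)) :=
        ((ContinuousLinearMap.apply ℂ (E (n + 1)) w).continuous.tendsto L).comp hM
      exact (ν.continuous.tendsto _).comp h4
    have h5 : Tendsto (fun j => ν (M j w)) atTop (𝓝 0) :=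
      tendsto_const_nhds.congr' (h2.mono fun j hj => hj.symm)
    exact tendsto_nhds_unique h3 h5
  -- conclusion
  have hW1' : W1 ≠ ⊥ := by
    intro h
    rw [h, finrank_bot] at hW1
    omega
  obtain ⟨w, hw, hw0⟩ := Submodule.exists_mem_ne_zero_of_ne_bot hW1'
  have hLw : L w ≠ 0 := fun h => hw0 ((injective_iff_map_eq_zero L).1 (hinj L hL) w h)
  have h1 := hzero (innerSL ℂ (L w)) w hw
  rw [innerSL_apply_apply, inner_self_eq_zero] at h1
  exact hLw h1

end Pool.Agent.Helper83.CB
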