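import Pool.Agent.Helper83.CB.Defs2
import Pool.Agent.Helper55.CB.GLOB

open Filter Topology MeasureTheory

namespace Pool.Agent.Helper83.CB

namespace FRAME

open GLOB

theorem N_zero {m : ℕ} {N : E m → ℝ} (h : IsNorm N) : N 0 = 0 := norm_zero' h

theorem N_nonneg {m : ℕ} {N : E m → ℝ} (h : IsNorm N) (x : E m) : 0 ≤ N x := by
  rcases eq_or_ne x 0 with h0 | h0
  · rw [h0, N_zero h]
  · exact (h.pos x h0).le

theorem N_sum {m : ℕ} {N : E m → ℝ} (h : IsNorm N) {ι : Type*} (s : Finset ι) (f : ι → E m) :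
    N (∑ i ∈ s, f i) ≤ ∑ i ∈ s, N (f i) := by
  classical
  induction s using Finset.induction_on with
  | empty => simp [N_zero h]
  | insert a s ha ih =>
    rw [Finset.sum_insert ha, Finset.sum_insert ha]
    exact (h.add _ _).trans (by linarith)

theorem upper {m : ℕ} {N : E m → ℝ} (h : IsNorm N) : ∃ b > 0, ∀ x, N x ≤ b * ‖x‖ := by
  classical
  set e := EuclideanSpace.basisFun (Fin m) ℂ with he
  refine ⟨∑ i, N (e i) + 1, ?_, fun x => ?_⟩
  · have : 0 ≤ ∑ i, N (e i) := Finset.sum_nonneg fun i _ => N_nonneg h _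
    linarith
  · have h1 : x = ∑ i, x i • e i := by
      refine (e.sum_repr x).symm.trans ?_
      refine Finset.sum_congr rfl fun i _ => ?_
      rw [he, EuclideanSpace.basisFun_repr]
    have h2 : N x ≤ ∑ i, ‖x‖ * N (e i) := by
      calc N x = N (∑ i, x i • e i) := by rw [← h1]
        _ ≤ ∑ i, N (x i • e i) := N_sum h _ _
        _ ≤ ∑ i, ‖x‖ * N (e i) := by
          refine Finset.sum_le_sum fun i _ => ?_
          rw [h.smul]
          exact mul_le_mul_of_nonneg_right (PiLp.norm_apply_le x i) (N_nonneg h _)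
    rw [← Finset.mul_sum] at h2
    have := norm_nonneg x
    nlinarith

theorem cont {m : ℕ} {N : E m → ℝ} (h : IsNorm N) : Continuous N := by
  obtain ⟨b, hb, hN⟩ := upper h
  have hL : LipschitzWith ⟨b, hb.le⟩ N := by
    apply LipschitzWith.of_dist_le_mul
    intro x y
    rw [Real.dist_eq, dist_eq_norm, abs_le]
    have h1 : N x ≤ N y + N (x - y) := by
      have := h.add y (x - y)
      rwa [add_sub_cancel] at this
    have h2 : N y ≤ N x + N (y - x) := by
      have := h.add x (y - x)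
      rwa [add_sub_cancel] at this
    have h3 := hN (x - y)
    have h4 := hN (y - x)
    rw [norm_sub_rev] at h4
    constructor
    · show -(b * ‖x - y‖) ≤ N x - N y
      linarith
    · show N x - N y ≤ b * ‖x - y‖
      linarith
  exact hL.continuous

theorem lower {m : ℕ} {N : E m → ℝ} (h : IsNorm N) : ∃ a > 0, ∀ x, a * ‖x‖ ≤ N x := by
  rcases (Metric.sphere (0 : E m) 1).eq_empty_or_nonempty with hs | hs
  · refine ⟨1, one_pos, fun x => ?_⟩
    have hx : x = 0 := by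
      by_contra hx
      have hn : ‖x‖ ≠ 0 := norm_ne_zero_iff.2 hx
      have : ((‖x‖⁻¹ : ℝ) : ℂ) • x ∈ Metric.sphere (0 : E m) 1 := by
        rw [mem_sphere_zero_iff_norm, norm_smul, Complex.norm_real, norm_inv, norm_norm,
          inv_mul_cancel₀ hn]
      rw [hs] at this
      exact this
    rw [hx, norm_zero, mul_zero]
    exact N_nonneg h _
  · obtain ⟨x0, hx0, hmin⟩ := (isCompact_sphere (0 : E m) 1).exists_isMinOn hs (cont h).continuousOn
    have hx00 : x0 ≠ 0 := by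
      intro h0
      rw [mem_sphere_zero_iff_norm, h0, norm_zero] at hx0
      exact zero_ne_one hx0
    refine ⟨N x0, h.pos _ hx00, fun x => ?_⟩
    rcases eq_or_ne x 0 with rfl | hx
    · rw [norm_zero, mul_zero]; exact N_nonneg h _
    have hn : ‖x‖ ≠ 0 := norm_ne_zero_iff.2 hx
    have hm : ((‖x‖⁻¹ : ℝ) : ℂ) • x ∈ Metric.sphere (0 : E m) 1 := by
      rw [mem_sphere_zero_iff_norm, norm_smul, Complex.norm_real, norm_inv, norm_norm,
        inv_mul_cancel₀ hn]
    have h1 : N x0 ≤ N (((‖x‖⁻¹ : ℝ) : ℂ) • x) := hmin hm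
    rw [h.smul, Complex.norm_real, norm_inv, norm_norm] at h1
    have hpos : 0 < ‖x‖ := norm_pos_iff.2 hx
    rwa [le_inv_mul_iff₀ hpos, mul_comm] at h1

/-- uniform bounds for isometric embeddings -/
theorem PP_bounds {n m : ℕ} {N0 : E n → ℝ} {N : E m → ℝ} (h0 : IsNorm N0) (h : IsNorm N) :
    ∃ B > 0, ∃ c > 0, ∀ L ∈ PP N0 N, ‖L‖ ≤ B ∧ ∀ z, c * ‖z‖ ≤ ‖L z‖ := by
  obtain ⟨b, hb, hNb⟩ := upper h
  obtain ⟨a, ha, hNa⟩ := lower h
  obtain ⟨b0, hb0, hNb0⟩ := upper h0
  obtain ⟨a0, ha0, hNa0⟩ := lower h0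
  refine ⟨b0 / a, by positivity, a0 / b, by positivity, fun L hL => ⟨?_, fun z => ?_⟩⟩
  · refine ContinuousLinearMap.opNorm_le_bound _ (by positivity) fun z => ?_
    have h1 := hNa (L z)
    rw [hL z] at h1
    have h2 := hNb0 z
    rw [div_mul_eq_mul_div, le_div_iff₀ ha]
    linarith
  · have h1 := hNb (L z)
    rw [hL z] at h1
    have h2 := hNa0 z
    rw [div_mul_eq_mul_div, div_le_iff₀ hb]
    linarith

/-- clamping to the ball of radius `ρ` in `ι → ℝ` -/
noncomputable def clamp {ι : Type} (ρ : ℝ) (x : ι → ℝ) : ι → ℝ := fun i => max (-ρ) (min ρ (x i))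

theorem clamp_lip {ι : Type} [Fintype ι] (ρ : ℝ) : LipschitzWith 1 (clamp (ι := ι) ρ) := by
  apply LipschitzWith.of_dist_le_mul
  intro x y
  rw [NNReal.coe_one, one_mul, dist_pi_le_iff dist_nonneg]
  intro i
  refine le_trans ?_ (dist_le_pi_dist x y i)
  have h1 := abs_max_sub_max_le_abs (min ρ (x i)) (min ρ (y i)) (-ρ)
  have h2 := abs_min_sub_min_le_max ρ (x i) ρ (y i)
  rw [Real.dist_eq, Real.dist_eq]
  show |max (-ρ) (min ρ (x i)) - max (-ρ) (min ρ (y i))| ≤ |x i - y i|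
  rw [max_comm (-ρ), max_comm (-ρ)]
  refine h1.trans (h2.trans ?_)
  rw [sub_self, abs_zero]
  exact max_le (abs_nonneg _) le_rfl

theorem clamp_mem {ι : Type} [Fintype ι] {ρ : ℝ} (hρ : 0 ≤ ρ) (x : ι → ℝ) :
    clamp ρ x ∈ Metric.closedBall (0 : ι → ℝ) ρ := by
  rw [mem_closedBall_zero_iff, pi_norm_le_iff_of_nonneg hρ]
  intro i
  rw [Real.norm_eq_abs, abs_le]
  exact ⟨le_max_left _ _, max_le (by linarith) (min_le_left _ _)⟩

theorem clamp_eq {ι : Type} [Fintype ι] {ρ : ℝ} {x : ι → ℝ}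
    (hx : x ∈ Metric.closedBall (0 : ι → ℝ) ρ) : clamp ρ x = x := by
  rw [mem_closedBall_zero_iff] at hx
  funext i
  have h1 : |x i| ≤ ρ := (norm_le_pi_norm x i).trans hx
  rw [abs_le] at h1
  show max (-ρ) (min ρ (x i)) = x i
  rw [min_eq_right h1.2, max_eq_right h1.1]

theorem proj_norm {m : ℕ} {p : M m} (h1 : p * p = p) (h2 : star p = p) (y : E m) :
    ‖p y‖ ≤ ‖y‖ := by
  have h3 : inner ℂ (p y) (p y) = inner ℂ y (p y) := by
    have h4 : inner ℂ (p y) (p y) = inner ℂ y ((star p) (p y)) := by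
      rw [ContinuousLinearMap.star_eq_adjoint, ContinuousLinearMap.adjoint_inner_right]
    rw [h4, h2]
    have : p (p y) = p y := by
      have := congrArg (fun q : M m => q y) h1
      exact this
    rw [this]
  have h5 : ‖p y‖ ^ 2 ≤ ‖y‖ * ‖p y‖ := by
    have h6 : (‖p y‖ ^ 2 : ℝ) = ‖inner ℂ (p y) (p y)‖ := by
      rw [inner_self_eq_norm_sq_to_K, norm_pow, RCLike.norm_ofReal, abs_norm]
    rw [h6, h3]
    exact norm_inner_le_norm _ _
  rcases eq_or_lt_of_le (norm_nonneg (p y)) with h0 | h0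
  · rw [← h0]; exact norm_nonneg _
  · by_contra hlt
    push Not at hlt
    nlinarith

/-- the left inverse with `L K = π` -/
theorem exists_K {n : ℕ} {L : E n →L[ℂ] E (n + 1)} {p : M (n + 1)} {c : ℝ} (hc : 0 < c)
    (hL : ∀ z, c * ‖z‖ ≤ ‖L z‖) (hp : p * p = p) (hps : star p = p) (hrg : rg L = rg p) :
    ∃ K : E (n + 1) →L[ℂ] E n, K.comp L = ContinuousLinearMap.id ℂ (E n) ∧ L.comp K = p ∧
      ‖K‖ ≤ c⁻¹ := by
  have hinj : Function.Injective L := by
    rw [injective_iff_map_eq_zero]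
    intro z hz
    have := hL z
    rw [hz, norm_zero] at this
    have h2 : ‖z‖ ≤ 0 := by
      by_contra h
      push Not at h
      have := mul_pos hc h
      linarith
    exact norm_le_zero_iff.1 h2
  obtain ⟨g, hg⟩ := LinearMap.exists_leftInverse_of_injective L.toLinearMap
    (LinearMap.ker_eq_bot.2 hinj)
  have hgL : ∀ z, g (L z) = z := fun z => congrFun (congrArg DFunLike.coe hg) z
  have hpL : ∀ z, p (L z) = L z := by
    intro z
    have h1 : L z ∈ rg p := by rw [← hrg]; exact ⟨z, rfl⟩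
    obtain ⟨y, hy⟩ := h1
    have hy' : p y = L z := hy
    rw [← hy']
    exact congrArg (fun q : M (n + 1) => q y) hp
  have hLg : ∀ y, L (g (p y)) = p y := by
    intro y
    have h1 : p y ∈ rg L := by rw [hrg]; exact ⟨y, rfl⟩
    obtain ⟨z, hz⟩ := h1
    have hz' : L z = p y := hz
    rw [← hz', hgL]
  set K : E (n + 1) →L[ℂ] E n := LinearMap.toContinuousLinearMap (g.comp p.toLinearMap) with hK
  have hKapp : ∀ y, K y = g (p y) := fun y => rfl
  refine ⟨K, ?_, ?_, ?_⟩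
  · ext1 z
    show K (L z) = z
    rw [hKapp, hpL, hgL]
  · ext1 y
    show L (K y) = p y
    rw [hKapp, hLg]
  · refine ContinuousLinearMap.opNorm_le_bound _ (by positivity) fun y => ?_
    have h1 := hL (K y)
    rw [hKapp, hLg] at h1
    have h2 := proj_norm hp hps y
    rw [hKapp, le_inv_mul_iff₀ hc]
    linarith

theorem rg_proj_dim {m : ℕ} {p : M (m + 1)} (hp : HypProj p) : Module.finrank ℂ (rg p) = m := by
  obtain ⟨-, -, f, hf, hrg⟩ := hp
  rw [hrg]
  exact finrank_kr hf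

end FRAME

open GLOB FRAME in
theorem st_FRAME (hRETR : ST_RETR) : ST_FRAME := by
  classical
  intro n N0 N hS hU ι _ π C hπ hproj ρ
  obtain ⟨δ, hδ, CR, hCR, R, hR1, hR2, hR3⟩ := hRETR n N0 N hS hU
  obtain ⟨B, hB, c, hc, hPP⟩ := PP_bounds hS.norm0 hS.norm
  have hinj : ∀ L ∈ PP N0 N, Function.Injective L := fun L hL => inj hS.norm0 hS.norm hL
  rcases lt_or_ge ρ 0 with hρ | hρ
  · -- trivial case
    refine ⟨fun _ => 0, fun _ => 0, ⟨⟨0, LipschitzWith.const 0⟩, ⟨0, LipschitzWith.const 0⟩,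
      ⟨0, fun x => by simp⟩, ?_, ?_, ?_⟩⟩
    all_goals
      intro x hx
      rw [Metric.closedBall_eq_empty.2 hρ] at hx
      exact absurd hx (Set.notMem_empty x)
  -- number of steps
  obtain ⟨q, hq⟩ := exists_nat_gt ((C : ℝ) * ρ * B / δ)
  have hq0 : 0 < (q : ℝ) := lt_of_le_of_lt (by positivity) hq
  have hqstep : (C : ℝ) * (ρ / q) * B < δ := by
    rw [div_lt_iff₀ hδ] at hq
    have : (C : ℝ) * (ρ / q) * B = (C * ρ * B) / q := by ring
    rw [this, div_lt_iff₀ hq0]
    linarith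
  have hp1 : ∀ x, ‖π x‖ ≤ 1 := fun x =>
    ContinuousLinearMap.opNorm_le_bound _ zero_le_one fun y => by
      rw [one_mul]; exact proj_norm (hproj x).1 (hproj x).2.1 y
  have hπd : ∀ x y, ‖π x - π y‖ ≤ C * ‖x - y‖ := by
    intro x y
    have := hπ.dist_le_mul x y
    rwa [dist_eq_norm, dist_eq_norm] at this
  -- induction over the steps
  have hind : ∀ j : ℕ, j ≤ q → ∃ (L : (ι → ℝ) → E n →L[ℂ] E (n + 1)) (D : ℝ), 0 ≤ D ∧
      (∀ x ∈ Metric.closedBall (0 : ι → ℝ) ρ, L x ∈ PP N0 N ∧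
        rg (L x) = rg (π (((j : ℝ) / q) • x))) ∧
      ∀ x ∈ Metric.closedBall (0 : ι → ℝ) ρ, ∀ y ∈ Metric.closedBall (0 : ι → ℝ) ρ,
        ‖L x - L y‖ ≤ D * ‖x - y‖ := by
    intro j
    induction j with
    | zero =>
      intro _
      obtain ⟨f, hf, hrg⟩ := (hproj 0).2.2
      obtain ⟨L, hL, hLrg⟩ := hS.hyp f hf
      refine ⟨fun _ => L, 0, le_rfl, fun x _ => ⟨hL, ?_⟩, fun x _ y _ => by simp⟩
      rw [hLrg, ← hrg]
      congr 2
      simp
    | succ j ih =>
      intro hj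
      obtain ⟨L, D, hD, hL, hLip⟩ := ih (by omega)
      set J : (ι → ℝ) → E n →L[ℂ] E (n + 1) := fun x =>
        (π ((((j + 1 : ℕ) : ℝ) / q) • x)).comp (L x) with hJ
      have hfix : ∀ x ∈ Metric.closedBall (0 : ι → ℝ) ρ,
          (π (((j : ℝ) / q) • x)).comp (L x) = L x := by
        intro x hx
        ext1 z
        have h1 : L x z ∈ rg (π (((j : ℝ) / q) • x)) := by
          rw [← (hL x hx).2]; exact ⟨z, rfl⟩
        obtain ⟨y, hy⟩ := h1
        have hy' : (π (((j : ℝ) / q) • x)) y = L x z := hy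
        show (π (((j : ℝ) / q) • x)) (L x z) = L x z
        rw [← hy']
        exact congrArg (fun p : M (n + 1) => p y) (hproj (((j : ℝ) / q) • x)).1
      have hnear : ∀ x ∈ Metric.closedBall (0 : ι → ℝ) ρ, ‖J x - L x‖ < δ := by
        intro x hx
        have e : J x - L x = (π ((((j + 1 : ℕ) : ℝ) / q) • x) - π (((j : ℝ) / q) • x)).comp (L x) := by
          rw [ContinuousLinearMap.sub_comp, hfix x hx]
        rw [e]
        refine (ContinuousLinearMap.opNorm_comp_le _ _).trans_lt ?_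
        have h1 := hπd ((((j + 1 : ℕ) : ℝ) / q) • x) (((j : ℝ) / q) • x)
        have h2 : ‖(((j + 1 : ℕ) : ℝ) / q) • x - ((j : ℝ) / q) • x‖ ≤ ρ / q := by
          rw [← sub_smul, norm_smul]
          have h3 : ((j + 1 : ℕ) : ℝ) / q - (j : ℝ) / q = 1 / q := by
            push_cast; ring
          rw [h3, Real.norm_of_nonneg (by positivity)]
          rw [mem_closedBall_zero_iff] at hx
          rw [one_div, inv_mul_eq_div]
          exact div_le_div_of_nonneg_right hx hq0.le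
        have h4 : ‖π ((((j + 1 : ℕ) : ℝ) / q) • x) - π (((j : ℝ) / q) • x)‖ ≤ C * (ρ / q) :=
          h1.trans (mul_le_mul_of_nonneg_left h2 C.2)
        calc _ ≤ (C * (ρ / q)) * B :=
              mul_le_mul h4 (hPP _ (hL x hx).1).1 (norm_nonneg _) (by positivity)
          _ < δ := hqstep
      refine ⟨fun x => R (J x), CR * (C * B + D), by positivity, ?_, ?_⟩
      · intro x hx
        obtain ⟨h1, h2⟩ := hR2 (L x) (hL x hx).1 (J x) (hnear x hx)
        refine ⟨h1, ?_⟩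
        apply Submodule.eq_of_le_of_finrank_eq
        · rw [h2]
          rintro _ ⟨z, rfl⟩
          exact ⟨L x z, rfl⟩
        · rw [finrank_rg (hinj _ h1), rg_proj_dim (hproj _)]
      · intro x hx y hy
        refine (hR3 (L x) (hL x hx).1 (L y) (hL y hy).1 (J x) (J y) (hnear x hx)
          (hnear y hy)).trans ?_
        rw [mul_assoc]
        refine mul_le_mul_of_nonneg_left ?_ hCR.le
        have e : J x - J y = (π ((((j + 1 : ℕ) : ℝ) / q) • x) -
            π ((((j + 1 : ℕ) : ℝ) / q) • y)).comp (L x) +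
            (π ((((j + 1 : ℕ) : ℝ) / q) • y)).comp (L x - L y) := by
          rw [ContinuousLinearMap.sub_comp, ContinuousLinearMap.comp_sub]
          simp only [hJ]
          abel
        rw [e]
        refine (norm_add_le _ _).trans ?_
        have h1 : ‖(π ((((j + 1 : ℕ) : ℝ) / q) • x) -
            π ((((j + 1 : ℕ) : ℝ) / q) • y)).comp (L x)‖ ≤ C * ‖x - y‖ * B := by
          refine (ContinuousLinearMap.opNorm_comp_le _ _).trans ?_
          refine mul_le_mul ?_ (hPP _ (hL x hx).1).1 (norm_nonneg _) (by positivity)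
          refine (hπd _ _).trans (mul_le_mul_of_nonneg_left ?_ C.2)
          rw [← smul_sub, norm_smul]
          have h3 : ‖((j + 1 : ℕ) : ℝ) / q‖ ≤ 1 := by
            rw [Real.norm_of_nonneg (by positivity), div_le_one hq0]
            exact_mod_cast hj
          calc _ ≤ 1 * ‖x - y‖ := mul_le_mul_of_nonneg_right h3 (norm_nonneg _)
            _ = _ := one_mul _
        have h2 : ‖(π ((((j + 1 : ℕ) : ℝ) / q) • y)).comp (L x - L y)‖ ≤ D * ‖x - y‖ := by
          refine (ContinuousLinearMap.opNorm_comp_le _ _).trans ?_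
          calc _ ≤ 1 * ‖L x - L y‖ := mul_le_mul_of_nonneg_right (hp1 _) (norm_nonneg _)
            _ ≤ _ := by rw [one_mul]; exact hLip x hx y hy
        calc _ ≤ C * ‖x - y‖ * B + D * ‖x - y‖ := add_le_add h1 h2
          _ = _ := by ring
  obtain ⟨L, D, hD, hL, hLip⟩ := hind q le_rfl
  have hqq : (q : ℝ) / q = 1 := div_self hq0.ne'
  have hLx : ∀ x ∈ Metric.closedBall (0 : ι → ℝ) ρ, L x ∈ PP N0 N ∧ rg (L x) = rg (π x) := by
    intro x hx
    have := hL x hx
    rwa [hqq, one_smul] at this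
  -- the left inverses
  have hKex : ∀ x ∈ Metric.closedBall (0 : ι → ℝ) ρ, ∃ K : E (n + 1) →L[ℂ] E n,
      K.comp (L x) = ContinuousLinearMap.id ℂ (E n) ∧ (L x).comp K = π x ∧ ‖K‖ ≤ c⁻¹ := fun x hx =>
    exists_K hc (hPP _ (hLx x hx).1).2 (hproj x).1 (hproj x).2.1 (hLx x hx).2
  choose! K hK1 hK2 hK3 using hKex
  have hKLip : ∀ x ∈ Metric.closedBall (0 : ι → ℝ) ρ, ∀ y ∈ Metric.closedBall (0 : ι → ℝ) ρ,
      ‖K x - K y‖ ≤ (c⁻¹ * C + c⁻¹ * D * c⁻¹) * ‖x - y‖ := by
    intro x hx y hy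
    have e : K x - K y = (K x).comp (π x - π y) + ((K x).comp (L y - L x)).comp (K y) := by
      have h1 : (K x).comp (π x) = K x := by
        rw [← hK2 x hx, ← ContinuousLinearMap.comp_assoc, hK1 x hx, ContinuousLinearMap.id_comp]
      have h2 : ((K x).comp (L y)).comp (K y) = (K x).comp (π y) := by
        rw [ContinuousLinearMap.comp_assoc, hK2 y hy]
      rw [ContinuousLinearMap.comp_sub, ContinuousLinearMap.comp_sub,
        ContinuousLinearMap.sub_comp, h1, h2, hK1 x hx, ContinuousLinearMap.id_comp]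
      abel
    rw [e]
    refine (norm_add_le _ _).trans ?_
    have hci : 0 ≤ c⁻¹ := by positivity
    have h1 : ‖(K x).comp (π x - π y)‖ ≤ c⁻¹ * (C * ‖x - y‖) :=
      (ContinuousLinearMap.opNorm_comp_le _ _).trans
        (mul_le_mul (hK3 x hx) (hπd _ _) (norm_nonneg _) hci)
    have h2 : ‖((K x).comp (L y - L x)).comp (K y)‖ ≤ (c⁻¹ * (D * ‖x - y‖)) * c⁻¹ := by
      refine (ContinuousLinearMap.opNorm_comp_le _ _).trans ?_
      refine mul_le_mul ?_ (hK3 y hy) (norm_nonneg _) (by positivity)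
      refine (ContinuousLinearMap.opNorm_comp_le _ _).trans ?_
      refine mul_le_mul (hK3 x hx) ?_ (norm_nonneg _) hci
      rw [norm_sub_rev]
      exact hLip x hx y hy
    calc _ ≤ c⁻¹ * (C * ‖x - y‖) + (c⁻¹ * (D * ‖x - y‖)) * c⁻¹ := add_le_add h1 h2
      _ = _ := by ring
  have hcl : ∀ x y : ι → ℝ, ‖clamp ρ x - clamp ρ y‖ ≤ ‖x - y‖ := by
    intro x y
    have := (clamp_lip (ι := ι) ρ).dist_le_mul x y
    rwa [dist_eq_norm, dist_eq_norm, NNReal.coe_one, one_mul] at this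
  refine ⟨fun x => L (clamp ρ x), fun x => K (clamp ρ x), ⟨⟨⟨D, hD⟩, ?_⟩, ?_, ?_, ?_, ?_, ?_⟩⟩
  · apply LipschitzWith.of_dist_le_mul
    intro x y
    rw [dist_eq_norm, dist_eq_norm]
    refine (hLip _ (clamp_mem hρ x) _ (clamp_mem hρ y)).trans ?_
    exact mul_le_mul_of_nonneg_left (hcl x y) hD
  · have h0 : 0 ≤ c⁻¹ * C + c⁻¹ * D * c⁻¹ := by positivity
    refine ⟨⟨_, h0⟩, ?_⟩
    apply LipschitzWith.of_dist_le_mul
    intro x y
    rw [dist_eq_norm, dist_eq_norm]
    refine (hKLip _ (clamp_mem hρ x) _ (clamp_mem hρ y)).trans ?_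
    exact mul_le_mul_of_nonneg_left (hcl x y) h0
  · exact ⟨c⁻¹, fun x => hK3 _ (clamp_mem hρ x)⟩
  · intro x hx
    show L (clamp ρ x) ∈ PP N0 N
    rw [clamp_eq hx]
    exact (hLx x hx).1
  · intro x hx
    show (K (clamp ρ x)).comp (L (clamp ρ x)) = _
    rw [clamp_eq hx]
    exact hK1 x hx
  · intro x hx
    show (L (clamp ρ x)).comp (K (clamp ρ x)) = _
    rw [clamp_eq hx]
    exact hK2 x hx

end Pool.Agent.Helper83.CB
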