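import Pool.Agent.Helper83.CB.Defs4

open Filter Topology MeasureTheory

namespace Pool.Agent.Helper83.CB

namespace GAUGE

variable {ι : Type} [Fintype ι] [DecidableEq ι]

/-- composition of complex linear maps is a bounded real bilinear map -/
theorem bilin (p q r : ℕ) :
    IsBoundedBilinearMap ℝ (fun z : (E q →L[ℂ] E r) × (E p →L[ℂ] E q) => z.1.comp z.2) where
  add_left := fun x y z => by ext w; simp
  smul_left := fun c x y => by ext w; simp
  add_right := fun x y z => by ext w; simp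
  smul_right := fun c x y => by
    refine ContinuousLinearMap.ext fun w => ?_
    show x (c • (y w)) = c • (x (y w))
    exact map_real_smul x.toLinearMap.toAddMonoidHom x.continuous c (y w)
  bound := ⟨1, one_pos, fun x y => by
    rw [one_mul]
    exact x.opNorm_comp_le y⟩

theorem hasFDerivAt_comp {p q r : ℕ} {A : (ι → ℝ) → (E q →L[ℂ] E r)}
    {B : (ι → ℝ) → (E p →L[ℂ] E q)} {x : ι → ℝ}
    (hA : DifferentiableAt ℝ A x) (hB : DifferentiableAt ℝ B x) :
    HasFDerivAt (fun y => (A y).comp (B y))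
      (((bilin p q r).deriv (A x, B x)).comp ((fderiv ℝ A x).prod (fderiv ℝ B x))) x :=
  HasFDerivAt.comp (g := fun z : (E q →L[ℂ] E r) × (E p →L[ℂ] E q) => z.1.comp z.2) x
    ((bilin p q r).hasFDerivAt (A x, B x)) (hA.hasFDerivAt.prodMk hB.hasFDerivAt)

theorem pd_comp {p q r : ℕ} {A : (ι → ℝ) → (E q →L[ℂ] E r)}
    {B : (ι → ℝ) → (E p →L[ℂ] E q)} {x : ι → ℝ}
    (hA : DifferentiableAt ℝ A x) (hB : DifferentiableAt ℝ B x) (μ : ι) :
    pd (fun y => (A y).comp (B y)) x μ = (pd A x μ).comp (B x) + (A x).comp (pd B x μ) := by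
  unfold pd
  rw [(hasFDerivAt_comp hA hB).fderiv]
  simp [IsBoundedBilinearMap.deriv_apply, add_comm]

theorem pd_congr {W : Type*} [NormedAddCommGroup W] [NormedSpace ℝ W] {f g : (ι → ℝ) → W}
    {x : ι → ℝ} (h : ∀ᶠ y in 𝓝 x, f y = g y) (μ : ι) : pd f x μ = pd g x μ := by
  unfold pd
  rw [Filter.EventuallyEq.fderiv_eq h]

theorem pd_const {W : Type*} [NormedAddCommGroup W] [NormedSpace ℝ W] (w : W)
    (x : ι → ℝ) (μ : ι) : pd (fun _ => w) x μ = 0 := by
  unfold pd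
  simp

theorem pd_star {n : ℕ} {a : (ι → ℝ) → M n} {x : ι → ℝ} (h : DifferentiableAt ℝ a x) (μ : ι) :
    pd (fun y => star (a y)) x μ = star (pd a x μ) := by
  unfold pd
  rw [h.hasFDerivAt.star.fderiv]
  rfl

theorem diff_star {n : ℕ} {a : (ι → ℝ) → M n} {x : ι → ℝ} (h : DifferentiableAt ℝ a x) :
    DifferentiableAt ℝ (fun y => star (a y)) x := h.star

theorem diff_comp {p q r : ℕ} {A : (ι → ℝ) → (E q →L[ℂ] E r)}
    {B : (ι → ℝ) → (E p →L[ℂ] E q)} {x : ι → ℝ}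
    (hA : DifferentiableAt ℝ A x) (hB : DifferentiableAt ℝ B x) :
    DifferentiableAt ℝ (fun y => (A y).comp (B y)) x :=
  (hasFDerivAt_comp hA hB).differentiableAt

/-- the algebra of gauge transformations, in the ring of endomorphisms -/
theorem alg {ι R : Type*} [Ring R] [Module ℝ R]
    (sm : ∀ (c : ℝ) (x y : R), (c • x) * y = c • (x * y))
    (ms : ∀ (c : ℝ) (x y : R), x * (c • y) = c • (x * y))
    (k : Set R) (Q0 Q1 : R →ₗ[ℝ] R) (a s : R)
    (γ : ℝ) (g : ι → ℝ) (X X' θ da ds : ι → R) (Y Y' : ι → ι → R)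
    (hsa : s * a = 1) (has : a * s = 1)
    (hθ : ∀ μ, θ μ = s * da μ) (hds : ∀ μ, ds μ * a = -θ μ)
    (hX : ∀ μ, X' μ = s * X μ * a + θ μ)
    (hY : ∀ μ ν, Y' μ ν = ds μ * X ν * a + ds μ * da ν + s * Y μ ν * a + s * (-X μ) * da ν)
    (hk : ∀ μ, θ μ ∈ k) (hfix : ∀ X ∈ k, Q0 X = X ∧ Q1 X = 0)
    (had0 : ∀ X, Q0 (s * X * a) = s * Q0 X * a) (had1 : ∀ X, Q1 (s * X * a) = s * Q1 X * a)
    (hb0 : ∀ Z ∈ k, ∀ X, Q0 (Z * X - X * Z) = Z * Q0 X - Q0 X * Z)
    (hb1 : ∀ Z ∈ k, ∀ X, Q1 (Z * X - X * Z) = Z * Q1 X - Q1 X * Z) (μ ν : ι) :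
    (g μ • Q1 (X' ν) - g ν • Q1 (X' μ)) +
      (Q0 (Y' μ ν - Y' ν μ) + γ • Q1 (Y' μ ν - Y' ν μ)) +
      ((Q0 (X' μ) + γ • Q1 (X' μ)) * (Q0 (X' ν) + γ • Q1 (X' ν)) -
        (Q0 (X' ν) + γ • Q1 (X' ν)) * (Q0 (X' μ) + γ • Q1 (X' μ))) =
    s * ((g μ • Q1 (X ν) - g ν • Q1 (X μ)) +
      (Q0 (Y μ ν - Y ν μ) + γ • Q1 (Y μ ν - Y ν μ)) +
      ((Q0 (X μ) + γ • Q1 (X μ)) * (Q0 (X ν) + γ • Q1 (X ν)) -
        (Q0 (X ν) + γ • Q1 (X ν)) * (Q0 (X μ) + γ • Q1 (X μ)))) * a := by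
  have hds' : ∀ μ, ds μ = -(θ μ * s) := fun μ => by
    calc ds μ = ds μ * (a * s) := by rw [has, mul_one]
      _ = (ds μ * a) * s := by rw [mul_assoc]
      _ = -(θ μ * s) := by rw [hds μ, neg_mul]
  have hda : ∀ μ, da μ = a * θ μ := fun μ => by
    rw [hθ μ, ← mul_assoc, has, one_mul]
  set x : ι → R := fun μ => s * X μ * a with hx
  have hYY : Y' μ ν - Y' ν μ = s * (Y μ ν - Y ν μ) * a + (θ ν * x μ - x μ * θ ν)
      - (θ μ * x ν - x ν * θ μ) - (θ μ * θ ν - θ ν * θ μ) := by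
    have e1 : ∀ μ ν, Y' μ ν = -(θ μ * x ν) - θ μ * θ ν + s * Y μ ν * a - x μ * θ ν := by
      intro μ ν
      rw [hY μ ν, hds' μ, hda ν, hx]
      have h1 : -(θ μ * s) * (a * θ ν) = -(θ μ * θ ν) := by
        rw [neg_mul, mul_assoc, ← mul_assoc s a, hsa, one_mul]
      rw [h1]
      simp only [neg_mul, mul_neg, mul_assoc]
      abel
    rw [e1 μ ν, e1 ν μ, mul_sub, sub_mul]
    abel
  have hb0' : ∀ μ X, Q0 (θ μ * X - X * θ μ) = θ μ * Q0 X - Q0 X * θ μ := fun μ X => hb0 _ (hk μ) X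
  have hb1' : ∀ μ X, Q1 (θ μ * X - X * θ μ) = θ μ * Q1 X - Q1 X * θ μ := fun μ X => hb1 _ (hk μ) X
  have f0 : ∀ μ, Q0 (θ μ) = θ μ := fun μ => (hfix _ (hk μ)).1
  have f1 : ∀ μ, Q1 (θ μ) = 0 := fun μ => (hfix _ (hk μ)).2
  have hx0 : ∀ μ, Q0 (x μ) = s * Q0 (X μ) * a := fun μ => had0 _
  have hx1 : ∀ μ, Q1 (x μ) = s * Q1 (X μ) * a := fun μ => had1 _
  have hX' : ∀ μ, X' μ = x μ + θ μ := hX
  have hsm : ∀ (c : ℝ) (Z : R), s * (c • Z) * a = c • (s * Z * a) := fun c Z => by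
    rw [ms, sm]
  have hmm : ∀ Z W : R, s * (Z * W) * a = (s * Z * a) * (s * W * a) := fun Z W => by
    calc s * (Z * W) * a = s * Z * 1 * W * a := by rw [mul_one]; simp only [mul_assoc]
      _ = s * Z * (a * s) * W * a := by rw [has]
      _ = _ := by simp only [mul_assoc]
  rw [hYY, hX' μ, hX' ν]
  simp only [map_add, map_sub, hb0', hb1', f0, f1, had0, had1, hx0, hx1, add_zero, mul_zero,
    zero_mul, sub_zero]
  simp only [mul_add s, mul_sub s, add_mul _ _ a, sub_mul _ _ a, hmm, hsm]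
  generalize s * Q0 (X μ) * a = p0
  generalize s * Q1 (X μ) * a = p1
  generalize s * Q0 (X ν) * a = q0
  generalize s * Q1 (X ν) * a = q1
  simp only [mul_add, add_mul, smul_add, smul_sub, sm, ms]
  abel

end GAUGE

theorem st_GAUGE : ST_GAUGE := by
  intro ι _ _ n k K K' L L' g Q0 Q1 a x hK hL ha hKL hun hL' hK' hθk hfix had0 had1 hb0 hb1 μ ν
  have hun0 := hun.self_of_nhds
  have hKL0 := hKL.self_of_nhds
  have hsa' := GAUGE.diff_star ha
  have pL' : ∀ μ, pd L' x μ = (pd L x μ).comp (a x) + (L x).comp (pd a x μ) := fun μ => by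
    rw [GAUGE.pd_congr hL' μ]
    exact GAUGE.pd_comp hL ha μ
  have pK' : ∀ μ, pd K' x μ = (star (pd a x μ)).comp (K x) + (star (a x)).comp (pd K x μ) := by
    intro μ
    rw [GAUGE.pd_congr hK' μ, GAUGE.pd_comp (A := fun y => star (a y)) hsa' hK μ,
      GAUGE.pd_star ha μ]
  have pKL : ∀ μ, (pd K x μ).comp (L x) = -((K x).comp (pd L x μ)) := by
    intro μ
    have h := GAUGE.pd_congr hKL μ
    rw [GAUGE.pd_comp hK hL μ, GAUGE.pd_const] at h
    exact eq_neg_of_add_eq_zero_left h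
  have psa : ∀ μ, star (pd a x μ) * a x = -(star (a x) * pd a x μ) := by
    intro μ
    have h := GAUGE.pd_congr (f := fun y => (star (a y)).comp (a y)) (g := fun _ => (1 : M n))
      (x := x) (hun.mono fun y hy => hy.1) μ
    rw [GAUGE.pd_comp (A := fun y => star (a y)) hsa' ha μ, GAUGE.pd_const,
      GAUGE.pd_star ha μ] at h
    exact eq_neg_of_add_eq_zero_left h
  have hK'0 := hK'.self_of_nhds
  refine GAUGE.alg (R := M n) (fun c y z => by ext w; simp) (fun c y z => by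
      refine ContinuousLinearMap.ext fun w => ?_
      show y (c • (z w)) = c • (y (z w))
      exact map_real_smul y.toLinearMap.toAddMonoidHom y.continuous c (z w)) k Q0 Q1 (a x) (star (a x)) (g x) (fun μ => pd g x μ)
    (fun μ => (K x).comp (pd L x μ)) (fun μ => (K' x).comp (pd L' x μ))
    (fun μ => star (a x) * pd a x μ) (fun μ => pd a x μ) (fun μ => star (pd a x μ))
    (fun μ ν => (pd K x μ).comp (pd L x ν)) (fun μ ν => (pd K' x μ).comp (pd L' x ν))
    hun0.1 hun0.2 (fun μ => rfl) psa ?_ ?_ hθk hfix had0 had1 hb0 hb1 μ ν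
  · intro μ
    show (K' x).comp (pd L' x μ) = _
    rw [hK'0, pL' μ]
    have h1 : ((star (a x)).comp (K x)).comp ((pd L x μ).comp (a x) + (L x).comp (pd a x μ)) =
        star (a x) * ((K x).comp (pd L x μ)) * a x +
          (star (a x)).comp (((K x).comp (L x)).comp (pd a x μ)) := by
      ext z
      simp
    rw [h1, hKL0]
    rfl
  · intro μ ν
    show (pd K' x μ).comp (pd L' x ν) = _
    rw [pK' μ, pL' ν]
    have h1 : ((star (pd a x μ)).comp (K x) + (star (a x)).comp (pd K x μ)).comp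
        ((pd L x ν).comp (a x) + (L x).comp (pd a x ν)) =
        star (pd a x μ) * ((K x).comp (pd L x ν)) * a x +
          (star (pd a x μ)).comp (((K x).comp (L x)).comp (pd a x ν)) +
          star (a x) * ((pd K x μ).comp (pd L x ν)) * a x +
          star (a x) * ((pd K x μ).comp (L x)) * pd a x ν := by
      ext z
      simp
      ring
    rw [h1, hKL0, pKL μ]
    rfl

end Pool.Agent.Helper83.CB
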