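import Pool.Agent.Helper83.CB.Defs
import Pool.Agent.Helper55.CB.GLOB

open Filter Topology

namespace Pool.Agent.Helper83.CB

namespace LOC

open GLOB

/-- continuous choice of functionals with a given kernel -/
theorem func {n : ℕ} {L0 : E n →L[ℂ] E (n + 1)} {f0 : E (n + 1) →L[ℂ] ℂ}
    (hinj : Function.Injective L0) (hf0 : f0 ≠ 0) (hrg : rg L0 = kr f0) :
    ∀ ε > 0, ∃ δ > 0, ∀ L : E n →L[ℂ] E (n + 1), Function.Injective L → ‖L - L0‖ < δ →
      ∃ f : E (n + 1) →L[ℂ] ℂ, ‖f - f0‖ < ε ∧ rg L = kr f := by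
  intro ε hε
  obtain ⟨x1, hx1⟩ : ∃ x, f0 x ≠ 0 := by
    by_contra h
    push Not at h
    exact hf0 (ContinuousLinearMap.ext h)
  set x0 : E (n + 1) := (f0 x1)⁻¹ • x1 with hx0
  have hfx : f0 x0 = 1 := by
    rw [hx0, map_smul, smul_eq_mul, inv_mul_cancel₀ hx1]
  have hL0 : ∀ z, f0 (L0 z) = 0 := by
    intro z
    have : L0 z ∈ kr f0 := by rw [← hrg]; exact ⟨z, rfl⟩
    exact this
  set Φ : (E n →L[ℂ] E (n + 1)) → ((E n × ℂ) →L[ℂ] E (n + 1)) :=
    fun L => L.coprod (ContinuousLinearMap.toSpanSingleton ℂ x0) with hΦ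
  have hΦapp : ∀ L z c, Φ L (z, c) = L z + c • x0 := by
    intro L z c
    simp [hΦ]
  have hΦcont : Continuous Φ := by
    have e : Φ = fun L => L.comp (ContinuousLinearMap.fst ℂ (E n) ℂ) +
        (ContinuousLinearMap.toSpanSingleton ℂ x0).comp (ContinuousLinearMap.snd ℂ (E n) ℂ) := by
      funext L
      ext x <;> simp [hΦ]
    rw [e]
    fun_prop
  have hbij : Function.Bijective (Φ L0) := by
    have hi : Function.Injective (Φ L0) := by
      rw [injective_iff_map_eq_zero]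
      rintro ⟨z, c⟩ h
      rw [hΦapp] at h
      have h1 := congrArg f0 h
      rw [map_add, hL0, map_smul, hfx, map_zero] at h1
      have hc : c = 0 := by simpa using h1
      rw [hc, zero_smul, add_zero] at h
      rw [hc, (injective_iff_map_eq_zero L0).1 hinj z h]
      rfl
    refine ⟨hi, ?_⟩
    have h2 := LinearMap.injective_iff_surjective_of_finrank_eq_finrank
      (f := (Φ L0).toLinearMap) (by
        rw [Module.finrank_prod, finrank_E, finrank_E, Module.finrank_self])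
    exact h2.1 hi
  set e : (E n × ℂ) ≃L[ℂ] E (n + 1) :=
    (LinearEquiv.ofBijective (Φ L0).toLinearMap hbij).toContinuousLinearEquiv with he
  have hecoe : (e : (E n × ℂ) →L[ℂ] E (n + 1)) = Φ L0 := by
    ext x <;> rfl
  set F : (E n →L[ℂ] E (n + 1)) → (E (n + 1) →L[ℂ] ℂ) := fun L =>
    (ContinuousLinearMap.snd ℂ (E n) ℂ).comp (ContinuousLinearMap.inverse (Φ L)) with hF
  have hFc : ContinuousAt F L0 := by
    have h1 : ContinuousAt (ContinuousLinearMap.inverse (R := ℂ) (M := E n × ℂ) (M₂ := E (n + 1)))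
        (Φ L0) := by
      rw [← hecoe]
      exact (contDiffAt_map_inverse (n := 0) e).continuousAt
    have h2 : ContinuousAt (fun L => ContinuousLinearMap.inverse (Φ L)) L0 :=
      ContinuousAt.comp (g := ContinuousLinearMap.inverse) (f := Φ) h1 hΦcont.continuousAt
    have h3 : Continuous (fun A : E (n + 1) →L[ℂ] (E n × ℂ) =>
        (ContinuousLinearMap.snd ℂ (E n) ℂ).comp A) := by fun_prop
    exact ContinuousAt.comp (g := fun A : E (n + 1) →L[ℂ] (E n × ℂ) =>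
      (ContinuousLinearMap.snd ℂ (E n) ℂ).comp A) h3.continuousAt h2
  have hFgood : ∀ L, (∃ e' : (E n × ℂ) ≃L[ℂ] E (n + 1), (e' : (E n × ℂ) →L[ℂ] E (n + 1)) = Φ L) →
      ∀ z c, F L (L z + c • x0) = c := by
    rintro L ⟨e', he'⟩ z c
    rw [hF]
    show (ContinuousLinearMap.snd ℂ (E n) ℂ) (ContinuousLinearMap.inverse (Φ L) (L z + c • x0)) = c
    rw [← he', ContinuousLinearMap.inverse_equiv, ← hΦapp, ← he']
    simp
  have hF0 : F L0 = f0 := by
    ext x
    obtain ⟨⟨z, c⟩, hzc⟩ := hbij.2 x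
    rw [← hzc, hΦapp, hFgood L0 ⟨e, hecoe⟩, map_add, hL0, map_smul, hfx]
    simp
  have h1 : ∀ᶠ L in 𝓝 L0, ‖F L - f0‖ < ε := by
    have := hFc.eventually (Metric.ball_mem_nhds (F L0) hε)
    filter_upwards [this] with L hL
    rw [dist_eq_norm, hF0] at hL
    exact hL
  have h2 : ∀ᶠ L in 𝓝 L0, ∃ e' : (E n × ℂ) ≃L[ℂ] E (n + 1),
      (e' : (E n × ℂ) →L[ℂ] E (n + 1)) = Φ L := by
    have h3 := ContinuousLinearEquiv.nhds e
    rw [hecoe] at h3
    exact hΦcont.continuousAt.eventually h3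
  obtain ⟨δ, hδ, hball⟩ := Metric.eventually_nhds_iff.1 (h1.and h2)
  refine ⟨δ, hδ, fun L hL hLd => ?_⟩
  obtain ⟨ha, hb⟩ := hball (y := L) (by rw [dist_eq_norm]; exact hLd)
  refine ⟨F L, ha, ?_⟩
  apply rg_eq_kr hL
  · intro h0
    have := hFgood L hb 0 1
    rw [h0] at this
    simp at this
  · intro z
    have := hFgood L hb z 0
    rwa [zero_smul, add_zero] at this

theorem finrank_inf_kr {m : ℕ} (W : Submodule ℂ (E m)) (f : E m →L[ℂ] ℂ) :
    Module.finrank ℂ W ≤ Module.finrank ℂ (W ⊓ kr f : Submodule ℂ (E m)) + 1 := by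
  set g : W →ₗ[ℂ] ℂ := f.toLinearMap.comp W.subtype with hg
  have h1 := LinearMap.finrank_range_add_finrank_ker g
  have h2 : Module.finrank ℂ (LinearMap.range g) ≤ 1 := by
    have := Submodule.finrank_le (LinearMap.range g)
    rwa [Module.finrank_self] at this
  have h3 : Module.finrank ℂ (LinearMap.ker g) ≤
      Module.finrank ℂ (W ⊓ kr f : Submodule ℂ (E m)) := by
    have h4 : (LinearMap.ker g).map W.subtype ≤ W ⊓ kr f := by
      rintro _ ⟨x, hx, rfl⟩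
      exact ⟨x.2, hx⟩
    have h5 := Submodule.finrank_mono h4
    rwa [Submodule.finrank_map_subtype_eq] at h5
  omega

/-- two functionals vanishing on `L0 C1`, dual to two vectors of `W1` -/
theorem duals {n : ℕ} {L0 : E n →L[ℂ] E (n + 1)} (hinj : Function.Injective L0)
    {W1 C1 : Submodule ℂ (E n)} (hd : W1 ⊓ C1 = ⊥) (h2 : 2 ≤ Module.finrank ℂ W1) :
    ∃ (ν : Fin 2 → E (n + 1) →L[ℂ] ℂ) (w : Fin 2 → E n), (∀ i, w i ∈ W1) ∧
      (∀ i k, ν i (L0 (w k)) = if i = k then 1 else 0) ∧ ∀ i, ∀ c ∈ C1, ν i (L0 c) = 0 := by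
  obtain ⟨v, hv⟩ := exists_linearIndependent_of_le_finrank h2
  set w : Fin 2 → E n := fun i => (v i : E n) with hw
  have hwi : LinearIndependent ℂ w := hv.map' W1.subtype (Submodule.ker_subtype W1)
  have hwW : ∀ i, w i ∈ W1 := fun i => (v i).2
  -- functionals
  have key : ∀ i : Fin 2, ∃ φ : E n →ₗ[ℂ] ℂ, (∀ k, φ (w k) = if i = k then 1 else 0) ∧
      ∀ c ∈ C1, φ c = 0 := by
    intro i
    set P : Submodule ℂ (E n) := C1 ⊔ Submodule.span ℂ (w '' {k | k ≠ i}) with hP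
    have hnot : w i ∉ P := by
      intro hmem
      obtain ⟨c, hc, y, hy, hcy⟩ := Submodule.mem_sup.1 hmem
      have hyW : y ∈ W1 := by
        have : Submodule.span ℂ (w '' {k | k ≠ i}) ≤ W1 := by
          rw [Submodule.span_le]
          rintro _ ⟨k, -, rfl⟩
          exact hwW k
        exact this hy
      have hcW : c ∈ W1 := by
        have : c = w i - y := by rw [← hcy]; abel
        rw [this]
        exact W1.sub_mem (hwW i) hyW
      have hc0 : c = 0 := by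
        have : c ∈ W1 ⊓ C1 := ⟨hcW, hc⟩
        rw [hd] at this
        exact (Submodule.mem_bot ℂ).1 this
      rw [hc0, zero_add] at hcy
      rw [hcy] at hy
      have := hwi.notMem_span_image (s := {k | k ≠ i}) (x := i) (by simp)
      exact this hy
    obtain ⟨φ, hφ1, hφ2⟩ := Submodule.exists_dual_map_eq_bot_of_notMem hnot inferInstance
    have hφP : ∀ p ∈ P, φ p = 0 := by
      intro p hp
      have : φ p ∈ P.map φ := ⟨p, hp, rfl⟩
      rw [hφ2] at this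
      exact (Submodule.mem_bot ℂ).1 this
    refine ⟨(φ (w i))⁻¹ • φ, ?_, ?_⟩
    · intro k
      by_cases hik : i = k
      · rw [if_pos hik, ← hik]
        show (φ (w i))⁻¹ * φ (w i) = 1
        exact inv_mul_cancel₀ hφ1
      · rw [if_neg hik]
        show (φ (w i))⁻¹ * φ (w k) = 0
        rw [hφP (w k) (Submodule.mem_sup_right (Submodule.subset_span ⟨k, fun h => hik h.symm, rfl⟩)),
          mul_zero]
    · intro c hc
      show (φ (w i))⁻¹ * φ c = 0
      rw [hφP c (Submodule.mem_sup_left hc), mul_zero]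
  choose φ hφ1 hφ2 using key
  obtain ⟨g, hg⟩ := LinearMap.exists_leftInverse_of_injective L0.toLinearMap
    (LinearMap.ker_eq_bot.2 hinj)
  have hgL : ∀ z, g (L0 z) = z := fun z => congrFun (congrArg DFunLike.coe hg) z
  refine ⟨fun i => LinearMap.toContinuousLinearMap ((φ i).comp g), w, hwW, ?_, ?_⟩
  · intro i k
    show φ i (g (L0 (w k))) = _
    rw [hgL, hφ1]
  · intro i c hc
    show φ i (g (L0 c)) = 0
    rw [hgL, hφ2 i c hc]

/-- linear algebra -/
theorem split {m : ℕ} {A : Submodule ℂ (E m)} {γ : Fin 2 → E m →L[ℂ] ℂ} {u : Fin 2 → E m}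
    (hu : ∀ k, u k ∈ A) (hdet : γ 0 (u 0) * γ 1 (u 1) - γ 0 (u 1) * γ 1 (u 0) ≠ 0) :
    A ≤ (A ⊓ kr (γ 0)) ⊔ (A ⊓ kr (γ 1)) := by
  intro x hx
  set d := γ 0 (u 0) * γ 1 (u 1) - γ 0 (u 1) * γ 1 (u 0) with hd
  set y : E m := (γ 1 x / d) • (γ 0 (u 0) • u 1 - γ 0 (u 1) • u 0) with hy
  have hyA : y ∈ A := A.smul_mem _ (A.sub_mem (A.smul_mem _ (hu 1)) (A.smul_mem _ (hu 0)))
  have h0 : γ 0 y = 0 := by
    rw [hy]
    simp only [map_smul, map_sub, smul_eq_mul]
    ring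
  have h1 : γ 1 y = γ 1 x := by
    rw [hy]
    simp only [map_smul, map_sub, smul_eq_mul]
    rw [div_mul_eq_mul_div, div_eq_iff hdet, hd]
  have hx2 : x = y + (x - y) := by abel
  rw [hx2]
  refine Submodule.add_mem_sup ⟨hyA, h0⟩ ⟨A.sub_mem hx hyA, ?_⟩
  show γ 1 (x - y) = 0
  rw [map_sub, h1, sub_self]

theorem tend_app {n m : ℕ} {L : ℕ → E n →L[ℂ] E m} {L0 : E n →L[ℂ] E m}
    (h : Tendsto L atTop (𝓝 L0)) (z : E n) : Tendsto (fun j => L j z) atTop (𝓝 (L0 z)) :=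
  ((ContinuousLinearMap.apply ℂ (E m) z).continuous.tendsto L0).comp h

theorem tend_app2 {m : ℕ} {f : ℕ → E m →L[ℂ] ℂ} {f0 : E m →L[ℂ] ℂ} {x : ℕ → E m} {x0 : E m}
    (h : Tendsto f atTop (𝓝 f0)) (hx : Tendsto x atTop (𝓝 x0)) :
    Tendsto (fun j => f j (x j)) atTop (𝓝 (f0 x0)) :=
  (isBoundedBilinearMap_apply.continuous.tendsto (f0, x0)).comp (h.prodMk_nhds hx)

end LOC

open GLOB LOC in
theorem st_LOC (hKEY : ST_KEY) (hLIFT : ST_LIFT) : ST_LOC := by
  classical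
  intro n N0 N hS W1 C1 hmax hC1 L0 hL0
  obtain ⟨-, hlift⟩ := hLIFT n N0 N hS
  have hinj : ∀ L ∈ PP N0 N, Function.Injective L := fun L hL => inj hS.norm0 hS.norm hL
  -- the functional `f0`
  obtain ⟨f0, hf0, hrg0⟩ : ∃ f0 : E (n + 1) →L[ℂ] ℂ, f0 ≠ 0 ∧ rg L0 = kr f0 := by
    have hlt : rg L0 < ⊤ := by
      rw [lt_top_iff_ne_top]
      intro h
      have := finrank_rg (hinj L0 hL0)
      rw [h, finrank_top, finrank_E] at this
      omega
    obtain ⟨f, hf, hle⟩ := Submodule.exists_le_ker_of_lt_top _ hlt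
    refine ⟨LinearMap.toContinuousLinearMap f, ?_, ?_⟩
    · intro h
      apply hf
      ext x
      exact congrFun (congrArg DFunLike.coe h) x
    · apply rg_eq_kr (hinj L0 hL0)
      · intro h
        apply hf
        ext x
        exact congrFun (congrArg DFunLike.coe h) x
      · intro z
        exact hle ⟨z, rfl⟩
  obtain ⟨ν, w, hw, hνw, hνC⟩ := duals (hinj L0 hL0) hmax.rot.inf hmax.two
  -- sequences
  set ε : ℕ → ℝ := fun j => 1 / ((j : ℝ) + 1) with hε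
  have hεpos : ∀ j, 0 < ε j := fun j => by rw [hε]; positivity
  have hεlim : Tendsto ε atTop (𝓝 0) := tendsto_one_div_add_atTop_nhds_zero_nat
  set g : Fin 2 → ℕ → E (n + 1) →L[ℂ] ℂ := fun i j => f0 + ((ε j : ℝ) : ℂ) • ν i with hg
  have hglim : ∀ i, Tendsto (g i) atTop (𝓝 f0) := by
    intro i
    have h1 : Tendsto (fun j : ℕ => ((ε j : ℝ) : ℂ)) atTop (𝓝 ((0 : ℝ) : ℂ)) :=
      (Complex.continuous_ofReal.tendsto 0).comp hεlim
    have h2 := (tendsto_const_nhds (x := f0)).add (h1.smul_const (ν i))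
    have h3 : f0 + ((0 : ℝ) : ℂ) • ν i = f0 := by ext x; simp
    have h4 : Tendsto (g i) atTop (𝓝 (f0 + ((0 : ℝ) : ℂ) • ν i)) := h2
    rwa [h3] at h4
  have hM : ∀ i, ∃ (J : ℕ) (M : ℕ → E n →L[ℂ] E (n + 1)), Tendsto M atTop (𝓝 L0) ∧
      ∀ j, J ≤ j → M j ∈ PP N0 N ∧ rg (M j) = kr (g i j) :=
    fun i => hlift L0 (g i) f0 hL0 hrg0 hf0 (hglim i)
  choose J M hMlim hMP using hM
  set K : ℕ := max (J 0) (J 1) with hK
  have hKJ : ∀ i, J i ≤ K := by
    intro i
    fin_cases i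
    · exact le_max_left _ _
    · exact le_max_right _ _
  have hshift : Tendsto (fun j : ℕ => j + K) atTop atTop := tendsto_add_atTop_nat K
  set M' : Fin 2 → ℕ → E n →L[ℂ] E (n + 1) := fun i j => M i (j + K) with hM'
  set g' : Fin 2 → ℕ → E (n + 1) →L[ℂ] ℂ := fun i j => g i (j + K) with hg'
  set s : ℕ → ℝ := fun j => ε (j + K) with hs
  have hspos : ∀ j, 0 < s j := fun j => hεpos _
  have hslim : Tendsto s atTop (𝓝 0) := hεlim.comp hshift
  have hM'lim : ∀ i, Tendsto (M' i) atTop (𝓝 L0) := fun i => (hMlim i).comp hshift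
  have hg'lim : ∀ i, Tendsto (g' i) atTop (𝓝 f0) := fun i => (hglim i).comp hshift
  have hM'P : ∀ i j, M' i j ∈ PP N0 N ∧ rg (M' i j) = kr (g' i j) := fun i j =>
    hMP i (j + K) ((hKJ i).trans (Nat.le_add_left _ _))
  have hg'eq : ∀ i j x, g' i j x = f0 x + (s j : ℂ) * ν i x := fun i j x => rfl
  set r := Module.finrank ℂ W1 with hr
  set C : ℕ → Submodule ℂ (E (n + 1)) := fun j => im (M' 0 j) W1 ⊔ im (M' 1 j) W1 with hC
  have hfr : ∀ i j, Module.finrank ℂ (im (M' i j) W1) = r := fun i j =>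
    finrank_im (hinj _ (hM'P i j).1) W1
  -- Claim 1
  have claim1 : ∀ᶠ j in atTop, Module.finrank ℂ (C j) = r + 1 := by
    have hν01 : Tendsto (fun j => ((s j)⁻¹ : ℂ) • (g' 0 j - g' 1 j)) atTop (𝓝 (ν 0 - ν 1)) := by
      have : (fun j => ((s j)⁻¹ : ℂ) • (g' 0 j - g' 1 j)) = fun _ => ν 0 - ν 1 := by
        funext j
        ext x
        have hsj : (s j : ℂ) ≠ 0 := by exact_mod_cast (hspos j).ne'
        show (s j : ℂ)⁻¹ * (g' 0 j x - g' 1 j x) = ν 0 x - ν 1 x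
        rw [hg'eq, hg'eq]
        field_simp
        ring
      rw [this]
      exact tendsto_const_nhds
    have hk := hKEY n N0 N hS W1 C1 hmax (M' 0) (M' 1) L0 (g' 0) (g' 1) f0 (ν 0 - ν 1) s
      (fun j => ⟨(hM'P 0 j).1, (hM'P 1 j).1, (hM'P 0 j).2, (hM'P 1 j).2⟩) hL0 (hM'lim 0)
      (hM'lim 1) (hg'lim 0) (hg'lim 1) hf0 hspos hν01
      (by
        intro c hc
        show ν 0 (L0 c) - ν 1 (L0 c) = 0
        rw [hνC 0 c hc, hνC 1 c hc, sub_zero])
      ⟨w 0, hw 0, by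
        show ν 0 (L0 (w 0)) - ν 1 (L0 (w 0)) ≠ 0
        rw [hνw, hνw]; simp⟩
    have hne : ∀ᶠ j in atTop, (ν 0 - ν 1) (M' 0 j (w 0)) ≠ 0 := by
      have h1 : Tendsto (fun j => (ν 0 - ν 1) (M' 0 j (w 0))) atTop
          (𝓝 ((ν 0 - ν 1) (L0 (w 0)))) :=
        ((ν 0 - ν 1).continuous.tendsto _).comp (tend_app (hM'lim 0) _)
      have h2 : (ν 0 - ν 1) (L0 (w 0)) ≠ 0 := by
        show ν 0 (L0 (w 0)) - ν 1 (L0 (w 0)) ≠ 0
        rw [hνw, hνw]; simp
      exact h1.eventually_ne h2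
    filter_upwards [hk, hne] with j hkj hnej
    have hsum := Submodule.finrank_sup_add_finrank_inf_eq (im (M' 0 j) W1) (im (M' 1 j) W1)
    rw [hfr, hfr] at hsum
    have hle : (im (M' 0 j) W1 ⊓ kr (g' 1 j) : Submodule ℂ (E (n + 1))) ≤
        im (M' 0 j) W1 ⊓ im (M' 1 j) W1 := by
      refine le_inf inf_le_left ?_
      rw [hkj]
      exact inf_le_left
    have h1 := Submodule.finrank_mono hle
    have h2 := finrank_inf_kr (im (M' 0 j) W1) (g' 1 j)
    rw [hfr] at h2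
    have h3 : r < Module.finrank ℂ (C j) := by
      have hlt : im (M' 0 j) W1 < C j := by
        rw [lt_iff_le_and_ne]
        refine ⟨le_sup_left, fun heq => ?_⟩
        have h4 : im (M' 1 j) W1 ≤ im (M' 0 j) W1 := by
          rw [heq]; exact le_sup_right
        have h5 : im (M' 1 j) W1 = im (M' 0 j) W1 :=
          Submodule.eq_of_le_of_finrank_eq h4 (by rw [hfr, hfr])
        apply hnej
        have h6 : M' 0 j (w 0) ∈ im (M' 0 j) W1 := mem_im (hw 0)
        have h7 : M' 0 j (w 0) ∈ kr (g' 0 j) := by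
          rw [← (hM'P 0 j).2]; exact im_le_rg h6
        have h8 : M' 0 j (w 0) ∈ kr (g' 1 j) := by
          rw [← (hM'P 1 j).2]
          rw [← h5] at h6
          exact im_le_rg h6
        have h9 : g' 0 j (M' 0 j (w 0)) = 0 := h7
        have h10 : g' 1 j (M' 0 j (w 0)) = 0 := h8
        rw [hg'eq] at h9 h10
        have hsj : (s j : ℂ) ≠ 0 := by exact_mod_cast (hspos j).ne'
        show ν 0 (M' 0 j (w 0)) - ν 1 (M' 0 j (w 0)) = 0
        have h11 : (s j : ℂ) * (ν 0 (M' 0 j (w 0)) - ν 1 (M' 0 j (w 0))) = 0 := by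
          linear_combination h9 - h10
        exact (mul_eq_zero.1 h11).resolve_left hsj
      have := Submodule.finrank_lt_finrank_of_lt hlt
      rwa [hfr] at this
    have h4 : Module.finrank ℂ (C j) + Module.finrank ℂ
        (im (M' 0 j) W1 ⊓ im (M' 1 j) W1 : Submodule ℂ (E (n + 1))) = r + r := hsum
    omega
  -- Claim 2
  have claim2 : ∀ᶠ j in atTop, ∃ δ > 0, ∀ L ∈ PP N0 N, ‖L - L0‖ < δ → im L W1 ≤ C j := by
    by_contra hno
    have hbad : ∃ᶠ j in atTop, ¬ ∃ δ > 0, ∀ L ∈ PP N0 N, ‖L - L0‖ < δ → im L W1 ≤ C j :=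
      Filter.not_eventually.1 hno
    have hch : ∀ j, ∃ (L : E n →L[ℂ] E (n + 1)) (f : E (n + 1) →L[ℂ] ℂ), L ∈ PP N0 N ∧
        ‖L - L0‖ < s j ∧ ‖f - f0‖ < s j ^ 2 ∧ rg L = kr f ∧
        ((¬ ∃ δ > 0, ∀ L ∈ PP N0 N, ‖L - L0‖ < δ → im L W1 ≤ C j) → ¬ im L W1 ≤ C j) := by
      intro j
      by_cases hb : ∃ δ > 0, ∀ L ∈ PP N0 N, ‖L - L0‖ < δ → im L W1 ≤ C j
      · refine ⟨L0, f0, hL0, ?_, ?_, hrg0, fun h => absurd hb h⟩
        · rw [sub_self, norm_zero]; exact hspos j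
        · rw [sub_self, norm_zero]; exact pow_pos (hspos j) 2
      · obtain ⟨δ, hδ, hfun⟩ := func (hinj L0 hL0) hf0 hrg0 (s j ^ 2) (pow_pos (hspos j) 2)
        have hb' := hb
        push Not at hb'
        obtain ⟨L, hL, hLd, hnot⟩ := hb' (min δ (s j)) (lt_min hδ (hspos j))
        obtain ⟨f, hf, hrgf⟩ := hfun L (hinj L hL) (lt_of_lt_of_le hLd (min_le_left _ _))
        exact ⟨L, f, hL, lt_of_lt_of_le hLd (min_le_right _ _), hf, hrgf, fun _ => hnot⟩
    choose Kj hf hKP hKd hfd hKrg hKbad using hch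
    have hKlim : Tendsto Kj atTop (𝓝 L0) := by
      rw [tendsto_iff_norm_sub_tendsto_zero]
      exact squeeze_zero (fun j => norm_nonneg _) (fun j => (hKd j).le) hslim
    have hflim : Tendsto hf atTop (𝓝 f0) := by
      rw [tendsto_iff_norm_sub_tendsto_zero]
      have : Tendsto (fun j => s j ^ 2) atTop (𝓝 0) := by
        have := hslim.pow 2
        simpa using this
      exact squeeze_zero (fun j => norm_nonneg _) (fun j => (hfd j).le) this
    have hνi : ∀ i, Tendsto (fun j => ((s j)⁻¹ : ℂ) • (g' i j - hf j)) atTop (𝓝 (ν i)) := by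
      intro i
      rw [tendsto_iff_norm_sub_tendsto_zero]
      refine squeeze_zero (fun j => norm_nonneg _) (fun j => ?_) hslim
      have hsj : (s j : ℂ) ≠ 0 := by exact_mod_cast (hspos j).ne'
      have e : ((s j)⁻¹ : ℂ) • (g' i j - hf j) - ν i = ((s j)⁻¹ : ℂ) • (f0 - hf j) := by
        ext x
        show (s j : ℂ)⁻¹ * (g' i j x - hf j x) - ν i x = (s j : ℂ)⁻¹ * (f0 x - hf j x)
        rw [hg'eq]
        field_simp
        ring
      rw [e, norm_smul, norm_inv, Complex.norm_real, Real.norm_of_nonneg (hspos j).le,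
        norm_sub_rev, inv_mul_le_iff₀ (hspos j)]
      have := (hfd j).le
      rwa [sq] at this
    have hkey : ∀ i, ∀ᶠ j in atTop, im (M' i j) W1 ⊓ kr (hf j) = im (Kj j) W1 ⊓ kr (g' i j) := by
      intro i
      exact hKEY n N0 N hS W1 C1 hmax (M' i) Kj L0 (g' i) hf f0 (ν i) s
        (fun j => ⟨(hM'P i j).1, hKP j, (hM'P i j).2, hKrg j⟩) hL0 (hM'lim i) hKlim
        (hg'lim i) hflim hf0 hspos (hνi i) (hνC i)
        ⟨w i, hw i, by rw [hνw, if_pos rfl]; exact one_ne_zero⟩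
    -- determinant
    have hdet : ∀ᶠ j in atTop,
        g' 0 j (Kj j (w 0)) * g' 1 j (Kj j (w 1)) - g' 0 j (Kj j (w 1)) * g' 1 j (Kj j (w 0)) ≠ 0 := by
      have ha : ∀ i k, Tendsto (fun j => (((s j)⁻¹ : ℂ) • (g' i j - hf j)) (Kj j (w k))) atTop
          (𝓝 (if i = k then 1 else 0)) := by
        intro i k
        rw [← hνw i k]
        exact tend_app2 (hνi i) (tend_app hKlim _)
      have hd := ((ha 0 0).mul (ha 1 1)).sub ((ha 0 1).mul (ha 1 0))
      have hd1 : ((if (0 : Fin 2) = 0 then (1 : ℂ) else 0) * (if (1 : Fin 2) = 1 then 1 else 0) -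
          (if (0 : Fin 2) = 1 then 1 else 0) * (if (1 : Fin 2) = 0 then 1 else 0)) ≠ 0 := by simp
      filter_upwards [hd.eventually_ne hd1] with j hj hzero
      apply hj
      have hz : ∀ k, hf j (Kj j (w k)) = 0 := by
        intro k
        have : Kj j (w k) ∈ kr (hf j) := by rw [← hKrg j]; exact ⟨w k, rfl⟩
        exact this
      have hv : ∀ i k, (((s j)⁻¹ : ℂ) • (g' i j - hf j)) (Kj j (w k)) =
          (s j : ℂ)⁻¹ * g' i j (Kj j (w k)) := by
        intro i k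
        show (s j : ℂ)⁻¹ * (g' i j (Kj j (w k)) - hf j (Kj j (w k))) = _
        rw [hz, sub_zero]
      rw [hv, hv, hv, hv]
      linear_combination ((s j : ℂ)⁻¹ * (s j : ℂ)⁻¹) * hzero
    obtain ⟨j, hbj, h0, h1, hdj⟩ := (hbad.and_eventually ((hkey 0).and ((hkey 1).and hdet))).exists
    apply hKbad j hbj
    refine (split (γ := fun i => g' i j) (u := fun k => Kj j (w k)) (fun k => mem_im (hw k))
      hdj).trans ?_
    show (im (Kj j) W1 ⊓ kr (g' 0 j)) ⊔ (im (Kj j) W1 ⊓ kr (g' 1 j)) ≤ C j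
    rw [← h0, ← h1]
    exact sup_le (inf_le_left.trans le_sup_left) (inf_le_left.trans le_sup_right)
  -- conclusion
  obtain ⟨j0, hj0⟩ := eventually_atTop.1 (claim1.and claim2)
  obtain ⟨hdim0, δ0, hδ0, hnear0⟩ := hj0 j0 le_rfl
  refine ⟨C j0, ⟨hdim0, ⟨δ0, hδ0, hnear0⟩, ?_⟩⟩
  intro δ hδ
  have hev : ∀ i, ∀ᶠ j in atTop, ‖M' i j - L0‖ < min δ δ0 := fun i =>
    (tendsto_iff_norm_sub_tendsto_zero.1 (hM'lim i)).eventually (gt_mem_nhds (lt_min hδ hδ0))
  obtain ⟨j, hj1, hj2, hj3⟩ := ((eventually_ge_atTop j0).and ((hev 0).and (hev 1))).exists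
  have hle : C j ≤ C j0 := by
    refine sup_le ?_ ?_
    · exact hnear0 _ (hM'P 0 j).1 (lt_of_lt_of_le hj2 (min_le_right _ _))
    · exact hnear0 _ (hM'P 1 j).1 (lt_of_lt_of_le hj3 (min_le_right _ _))
  have heq : C j = C j0 :=
    Submodule.eq_of_le_of_finrank_eq hle (by rw [(hj0 j hj1).1, hdim0])
  rw [← heq]
  refine sup_le ?_ ?_
  · exact le_iSup (fun L : {L : E n →L[ℂ] E (n + 1) // L ∈ PP N0 N ∧ ‖L - L0‖ < δ} => im L.1 W1)
      ⟨M' 0 j, (hM'P 0 j).1, lt_of_lt_of_le hj2 (min_le_left _ _)⟩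
  · exact le_iSup (fun L : {L : E n →L[ℂ] E (n + 1) // L ∈ PP N0 N ∧ ‖L - L0‖ < δ} => im L.1 W1)
      ⟨M' 1 j, (hM'P 1 j).1, lt_of_lt_of_le hj3 (min_le_left _ _)⟩

end Pool.Agent.Helper83.CB
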